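import Pool.Agent.H54.AP.Main

/-!
# [H54 AP RP] The condition for finite subsets
-/

set_option autoImplicit false

namespace Pool.Agent.H54.AP

open Pool.H8.CDW Pool.Agent.H52.PAG Pool.Agent.H75.INF Pool.Agent.H54.TF
open Pool.Agent.H54.AR (rst rst_apply)

theorem psd_rst {B : Type} {M : CoxeterMatrix B} (T : Finset B)
    (h : ∀ x : B → ℝ, 0 ≤ ∑ i ∈ T, ∑ j ∈ T, x i * x j * -Real.cos (Real.pi / M i j)) : Psd (rst M T) := by
  classical
  rw [psd_iff]
  intro x
  obtain ⟨y, hy⟩ : ∃ y : B → ℝ, ∀ i : T, y i = x i := by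
    refine ⟨fun i => if hi : i ∈ T then x ⟨i, hi⟩ else 0, fun i => ?_⟩
    exact dif_pos i.2
  have h1 := h y
  rw [← Finset.sum_coe_sort T] at h1
  have e : qf (rst M T) x = ∑ i : T, ∑ j ∈ T, y i * y j * -Real.cos (Real.pi / M i j) := by
    unfold qf bf cm
    refine Finset.sum_congr rfl fun i _ => ?_
    rw [← Finset.sum_coe_sort T]
    refine Finset.sum_congr rfl fun j _ => ?_
    rw [hy, hy]
    rfl
  rw [e]
  exact h1

end Pool.Agent.H54.AP
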