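import Pool.Agent.H54.AP.Asm
import Pool.Agent.H54.AP.Rp
import Pool.Agent.H19.LK.Main
import Pool.Agent.H9.AT.Cir

/-!
# [H54 AP END] The theorem for finite and affine types
-/

set_option autoImplicit false

namespace Pool.Agent.H54.AP

open CoxeterSystem Pool.H8.CDW Pool.Agent.H52.PAG Pool.Agent.H75.INF Pool.Agent.H98.FJ Pool.Agent.H54.CX Pool.Agent.H54.TF Pool.Agent.H54.AF
open Pool.Agent.H54.AR (rst rst_apply)

theorem girPsd : GirPsd := girPsd_of Pool.Agent.H19.LK.comLeaf Pool.Agent.H19.LK.comInner Pool.Agent.H9.AT.pcir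

theorem aff_mem {C : (G : Type) → [Group G] → Prop} (hC : Inherits C) (hE : Extension C)
    (hcat : Cat2 C) (hGL : ∀ n : ℕ, C (GL (Fin n) ℤ)) (B : Type) (M : CoxeterMatrix B)
    (hM : ∀ K : Finset B, (∀ i ∈ K, ∀ j ∈ K, M i j ≠ 0) →
      (∀ L ⊆ K, L.Nonempty → L ≠ K → ∃ i ∈ L, ∃ j ∈ K, j ∉ L ∧ M i j ≠ 2) →
      C (Art (rst M K)) ∨ ∀ T ⊆ K, 3 ≤ T.card →
        (∀ L ⊆ T, L.Nonempty → L ≠ T → ∃ i ∈ L, ∃ j ∈ T, j ∉ L ∧ M i j ≠ 2) →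
        (∀ i ∈ T, ∀ j ∈ T, ∀ k ∈ T, i ≠ j → j ≠ k → i ≠ k → (1 : ℝ) < 1 / M i j + 1 / M j k + 1 / M i k) →
        (∀ x : B → ℝ, 0 ≤ ∑ i ∈ T, ∑ j ∈ T, x i * x j * -Real.cos (Real.pi / M i j)) ∧ C (Art (rst M T))) : C (Art M) :=
  psd_mem hC hE hcat hGL girPsd B M fun K hK hirr => (hM K hK hirr).imp_right fun h T hT h3 hI ht =>
    ⟨psd_rst T (h T hT h3 hI ht).1, (h T hT h3 hI ht).2⟩

end Pool.Agent.H54.AP
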