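import Pool.Agent.H54.AP.Lad
import Pool.Agent.H54.AP.Main

/-!
# [H54 AP ASM] The girth of the links from (COM) and from POLY for circuits
-/

set_option autoImplicit false

namespace Pool.Agent.H54.AP

open CoxeterSystem Pool.H8.CDW Pool.Agent.H52.PAG Pool.Agent.H75.INF Pool.Agent.H54.TF Pool.Agent.H54.AF Pool.Agent.H54.BS
  Pool.Agent.H34.TG Pool.Agent.H54.LK Pool.Agent.H52.VK

theorem irr_resM {B : Type} {M : CoxeterMatrix B} {T : Set B} (h : Irr M T) : Irr (resM M T) Set.univ := by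
  intro L _ hL hLu
  obtain ⟨i, ⟨a, ha, e⟩, j, hj, hjL, hij⟩ := h (Subtype.val '' L) (by
      rintro _ ⟨x, -, rfl⟩
      exact x.2) (hL.image _) (by
      intro e
      apply hLu
      rw [Set.eq_univ_iff_forall]
      intro x
      have h1 : x.1 ∈ (Subtype.val '' L : Set B) := by
        rw [e]
        exact x.2
      obtain ⟨y, hy, hyx⟩ := h1
      rwa [Subtype.ext hyx] at hy)
  subst e
  exact ⟨a, ha, ⟨j, hj⟩, trivial, fun h1 => hjL ⟨_, h1, rfl⟩, hij⟩

private theorem cdiff {B : Type} (a b : B) : ({a}ᶜ \ {b} : Set B) = ({a, b}ᶜ : Set B) := by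
  ext s
  simp only [Set.mem_sdiff, Set.mem_compl_iff, Set.mem_singleton_iff, Set.mem_insert_iff, not_or]

theorem girPsd_of (hL : ComLeaf) (hI : ComInner) (hc : PCir) : GirPsd := by
  intro B _ M hM hW a b c hab hac hbc
  have key : ∀ L ⊆ ({a}ᶜ : Set B), Irr M L → 3 ≤ L.ncard → Tri3 M L → PolF M L := by
    intro L _ h1 h3 h4
    have h5 : PolF (resM M L) Set.univ := by
      refine polF_psd hL hI sphG b1s fors hc (fun i j => hM i.1 j.1) (irr_resM h1) (by rwa [Nat.card_coe_set_eq]) ?_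
        (hW L h1 h3 h4)
      intro i _ j _ k _ hij hjk hik
      exact h4 i.1 i.2 j.1 j.2 k.1 k.2 (fun e => hij (Subtype.ext e)) (fun e => hjk (Subtype.ext e)) (fun e => hik (Subtype.ext e))
    have h6 := (polF_res L Set.univ).1 h5
    rwa [Set.image_univ, Subtype.range_coe] at h6
  have h2 := gir_of_polF (polF_irr Pool.Agent.H65.FIN.pstep sphG b1s fors hM ({a}ᶜ : Set B) key) (b := b) (c := c)
    (fun h => hab (Eq.symm h)) (fun h => hac (Eq.symm h)) hbc
  rwa [cdiff, cdiff] at h2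

end Pool.Agent.H54.AP
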