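import Pool.Agent.H54.AP.Nv

/-!
# [H54 AP CYC] A positive semidefinite irreducible diagram which is not a forest is a circuit with labels `3` (90 min)

(1) Let `G` be the `SimpleGraph B` with `G.Adj i j ↔ 3 ≤ M i j`. If `G.IsAcyclic` then `Forest M`: `SimpleGraph.isAcyclic_iff_forall_edge_isBridge`, `isBridge_iff` (`Forest` says that `c` is not reachable from `b` without the edge `b c`;
`Reachable` from `ReflTransGen` by induction). So there is a cycle: a closed walk `p` with `p.IsCycle`, `n = p.length ≥ 3` (`IsCycle.three_le_length`), vertices `p.getVert k`, `k < n`, pairwise different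
(`IsCycle.getVert_injOn'` or similar), consecutive ones adjacent (`adj_getVert_succ`), `p.getVert n = p.getVert 0`. So there is an injective `f : ZMod n → B` with `3 ≤ M (f k) (f (k + 1))` for all `k` (`f k = p.getVert k.val`).
(2) Let `x i = 1` if `i ∈ range f`, `0` otherwise. `qf M x = ∑_(k l : ZMod n) cm (f k) (f l) ≤ ∑_k (1 + cm (f k) (f (k+1)) + cm (f k) (f (k-1))) ≤ ∑_k (1 - 1/2 - 1/2) = 0`: `cm_self`, `cm_le`, all other terms are `≤ 0` (`cm_nonpos`),
`k`, `k + 1`, `k - 1` are different (`n ≥ 3`).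
(3) `null_vec`: `|x i| > 0` for all `i`, so `f` is surjective, and `∑ j, cm M i j = 0` for all `i`. For `i = f k`: `1 + cm (f k) (f (k+1)) + cm (f k) (f (k-1)) + rest = 0` where both are `≤ -1/2` and the rest is `≤ 0`. So both are `= -1/2`, that is label `3`
(`cm_lt`), and the rest is `0`, that is all other labels are `2` (`cm_neg`; label `≠ 0`, `≠ 1`). `e = (Equiv.ofBijective f).symm`.
-/

set_option autoImplicit false

namespace Pool.Agent.H54.AP

open CoxeterSystem Pool.H8.CDW Pool.Agent.H52.PAG Pool.Agent.H75.INF Pool.Agent.H54.TF Pool.Agent.H54.AF Pool.Agent.H54.BS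
  Pool.Agent.H54.CT Pool.Agent.H34.TG Pool.Agent.H54.LK Pool.Agent.H2.UF

variable {B : Type} {M : CoxeterMatrix B}

/-- a closed path -/
private theorem cyc_path (hfo : ¬ Forest M) :
    ∃ n : ℕ, 3 ≤ n ∧ ∃ f : ZMod n → B, Function.Injective f ∧ ∀ k, 3 ≤ M (f k) (f (k + 1)) := by
  obtain ⟨G, hG⟩ : ∃ G : SimpleGraph B, ∀ i j, G.Adj i j ↔ 3 ≤ M i j :=
    ⟨{ Adj := fun i j => 3 ≤ M i j
       symm := ⟨fun i j h => by
         rw [M.symmetric]
         exact h⟩
       loopless := ⟨fun i h => by
         rw [M.diagonal] at h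
         omega⟩ }, fun i j => Iff.rfl⟩
  unfold Forest at hfo
  push Not at hfo
  obtain ⟨b, c, hbc, hp⟩ := hfo
  have h1 : (G.deleteEdges {s(b, c)}).Reachable b c := by
    have key : ∀ y, Relation.ReflTransGen (fun x y => 3 ≤ M x y ∧ ¬ (x = b ∧ y = c) ∧ ¬ (x = c ∧ y = b)) b y →
        (G.deleteEdges {s(b, c)}).Reachable b y := by
      intro y hy
      induction hy with
      | refl => exact SimpleGraph.Reachable.refl _
      | @tail x y _ h2 ih =>
        refine ih.trans (SimpleGraph.Adj.reachable ?_)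
        rw [SimpleGraph.deleteEdges_adj, hG]
        refine ⟨h2.1, ?_⟩
        rw [Set.mem_singleton_iff, Sym2.eq_iff]
        rintro (e | e)
        · exact h2.2.1 e
        · exact h2.2.2 e
    exact key c (by simpa using hp)
  obtain ⟨u, p, hp, -⟩ := SimpleGraph.adj_and_reachable_delete_edges_iff_exists_cycle.1 ⟨(hG b c).2 hbc, h1⟩
  have hn := hp.three_le_length
  haveI : NeZero p.length := ⟨by omega⟩
  haveI : Fact (1 < p.length) := ⟨by omega⟩
  refine ⟨p.length, hn, fun k => p.getVert k.val, fun k l hkl => ?_, fun k => ?_⟩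
  · have hk := ZMod.val_lt k
    have hl := ZMod.val_lt l
    exact ZMod.val_injective _ (hp.getVert_injOn' (show k.val ≤ p.length - 1 by omega)
      (show l.val ≤ p.length - 1 by omega) hkl)
  · have hk := ZMod.val_lt k
    have h2 := p.adj_getVert_succ hk
    rw [hG] at h2
    have h3 : p.getVert (k + 1).val = p.getVert (k.val + 1) := by
      rw [ZMod.val_add, ZMod.val_one]
      rcases Nat.lt_or_ge (k.val + 1) p.length with h4 | h4
      · rw [Nat.mod_eq_of_lt h4]
      · have h5 : k.val + 1 = p.length := by omega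
        rw [h5, Nat.mod_self, SimpleGraph.Walk.getVert_zero, SimpleGraph.Walk.getVert_length]
    show 3 ≤ M (p.getVert k.val) (p.getVert (k + 1).val)
    rw [h3]
    exact h2

private theorem cyc_three {n : ℕ} (hn : 3 ≤ n) (k : ZMod n) : k ≠ k + 1 ∧ k ≠ k - 1 ∧ k + 1 ≠ k - 1 := by
  haveI : NeZero n := ⟨by omega⟩
  haveI : Fact (1 < n) := ⟨by omega⟩
  have h1 : (1 : ZMod n) ≠ 0 := one_ne_zero
  have h2 : (2 : ZMod n) ≠ 0 := by
    intro h
    have h3 : ((2 : ℕ) : ZMod n) = 0 := by exact_mod_cast h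
    rw [ZMod.natCast_eq_zero_iff] at h3
    have := Nat.le_of_dvd (by norm_num) h3
    omega
  refine ⟨fun h => h1 ?_, fun h => h1 ?_, fun h => h2 ?_⟩
  · linear_combination -h
  · linear_combination h
  · linear_combination h

theorem cir_of_cycle [Fintype B] (hM : ∀ i j, M i j ≠ 0) (hI : Irr M Set.univ) (hp : Psd M) (hfo : ¬ Forest M) :
    ∃ n : ℕ, 3 ≤ n ∧ ∃ e : B ≃ ZMod n, ∀ i j, i ≠ j → M i j = if e j = e i + 1 ∨ e i = e j + 1 then 3 else 2 := by
  classical
  obtain ⟨n, hn, f, hf, hadj⟩ := cyc_path hfo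
  haveI : NeZero n := ⟨by omega⟩
  have hadj' : ∀ k, 3 ≤ M (f k) (f (k - 1)) := fun k => by
    have h1 := hadj (k - 1)
    rw [sub_add_cancel] at h1
    rw [M.symmetric]
    exact h1
  -- one row
  have row : ∀ k : ZMod n, ∑ l ∈ ({k, k + 1, k - 1} : Finset (ZMod n)), cm M (f k) (f l) =
      1 + cm M (f k) (f (k + 1)) + cm M (f k) (f (k - 1)) := fun k => by
    obtain ⟨h1, h2, h3⟩ := cyc_three hn k
    rw [Finset.sum_insert (by simp [h1, h2]), Finset.sum_insert (by simp [h3]), Finset.sum_singleton, cm_self]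
    ring
  have rest : ∀ k : ZMod n, ∑ l, cm M (f k) (f l) ≤
      ∑ l ∈ ({k, k + 1, k - 1} : Finset (ZMod n)), cm M (f k) (f l) := fun k => by
    have h1 := Finset.sum_le_sum_of_subset_of_nonneg (f := fun l => -cm M (f k) (f l))
      (Finset.subset_univ ({k, k + 1, k - 1} : Finset (ZMod n))) (fun l _ hl => by
        have h2 : f k ≠ f l := fun h => hl (by rw [← hf h]; simp)
        have := cm_nonpos h2 (hM _ _)
        linarith)
    rw [Finset.sum_neg_distrib, Finset.sum_neg_distrib] at h1
    linarith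
  have rle : ∀ k : ZMod n, ∑ l, cm M (f k) (f l) ≤ 0 := fun k => by
    have h1 := rest k
    rw [row] at h1
    have h2 := cm_le (hadj k)
    have h3 := cm_le (hadj' k)
    linarith
  -- the vector
  obtain ⟨x, hx⟩ : ∃ x : B → ℝ, x = fun i => if i ∈ Finset.univ.image f then 1 else 0 := ⟨_, rfl⟩
  have hsum : ∀ g : B → ℝ, ∑ i, x i * g i = ∑ k, g (f k) := fun g => by
    rw [hx]
    simp only [ite_mul, one_mul, zero_mul]
    rw [Finset.sum_ite_mem, Finset.univ_inter, Finset.sum_image (fun a _ b _ h => hf h)]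
  have hq : qf M x ≤ 0 := by
    unfold qf bf
    have h1 : ∑ i, ∑ j, x i * x j * cm M i j = ∑ i, x i * ∑ j, x j * cm M i j := by
      refine Finset.sum_congr rfl fun i _ => ?_
      rw [Finset.mul_sum]
      refine Finset.sum_congr rfl fun j _ => ?_
      ring
    rw [h1, hsum]
    refine Finset.sum_nonpos fun k _ => ?_
    rw [hsum]
    exact rle k
  have hx0 : x ≠ 0 := by
    intro h
    have h1 := congrFun h (f 0)
    rw [hx] at h1
    simp at h1
  obtain ⟨hpos, hnull⟩ := null_vec hM hI hp hx0 hq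
  have hsurj : Function.Surjective f := by
    intro i
    have h1 := hpos i
    rw [hx] at h1
    by_contra hi
    push Not at hi
    have h2 : i ∉ Finset.univ.image f := by
      simp only [Finset.mem_image, Finset.mem_univ, true_and, not_exists]
      exact hi
    simp only [if_neg h2, abs_zero, lt_self_iff_false] at h1
  have hx1 : ∀ i, |x i| = 1 := fun i => by
    obtain ⟨k, rfl⟩ := hsurj i
    rw [hx]
    simp
  have hrow : ∀ k : ZMod n, ∑ l, cm M (f k) (f l) = 0 := fun k => by
    have h1 := hnull (f k)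
    simp only [hx1, mul_one] at h1
    rw [← h1]
    exact (Function.Bijective.sum_comp ⟨hf, hsurj⟩ (fun j => cm M (f k) j))
  have lab3 : ∀ k, M (f k) (f (k + 1)) = 3 := fun k => by
    have h1 := rest k
    rw [row, hrow] at h1
    have h2 := cm_le (hadj k)
    have h3 := cm_le (hadj' k)
    by_contra h4
    have h5 := hadj k
    have h6 := cm_lt (show 4 ≤ M (f k) (f (k + 1)) by omega)
    linarith
  have lab2 : ∀ k l, k ≠ l → l ≠ k + 1 → l ≠ k - 1 → M (f k) (f l) = 2 := fun k l h1 h2 h3 => by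
    by_contra h4
    have h5 : f k ≠ f l := fun h => h1 (hf h)
    have h6 := M.off_diagonal _ _ h5
    have h7 := hM (f k) (f l)
    have h8 := cm_neg (show 3 ≤ M (f k) (f l) by omega)
    have h9 := Finset.sum_le_sum_of_subset_of_nonneg (f := fun l => -cm M (f k) (f l))
      (Finset.subset_univ (insert l ({k, k + 1, k - 1} : Finset (ZMod n)))) (fun m _ hm => by
        have h10 : f k ≠ f m := fun h => hm (by rw [← hf h]; simp)
        have := cm_nonpos h10 (hM _ _)
        linarith)
    rw [Finset.sum_neg_distrib, Finset.sum_neg_distrib, hrow,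
      Finset.sum_insert (by simp [h1.symm, h2, h3]), row] at h9
    have h11 := cm_le (hadj k)
    have h12 := cm_le (hadj' k)
    linarith
  refine ⟨n, hn, (Equiv.ofBijective f ⟨hf, hsurj⟩).symm, fun i j hij => ?_⟩
  obtain ⟨k, rfl⟩ := hsurj i
  obtain ⟨l, rfl⟩ := hsurj j
  have e1 : ∀ m, (Equiv.ofBijective f ⟨hf, hsurj⟩).symm (f m) = m := fun m =>
    (Equiv.ofBijective f ⟨hf, hsurj⟩).symm_apply_apply m
  rw [e1, e1]
  have hkl : k ≠ l := fun h => hij (by rw [h])
  split_ifs with h
  · rcases h with h | h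
    · rw [h]
      exact lab3 k
    · rw [h, M.symmetric]
      exact lab3 l
  · push Not at h
    refine lab2 k l hkl h.1 fun h1 => h.2 ?_
    rw [h1, sub_add_cancel]

end Pool.Agent.H54.AP
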