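import Pool.Agent.H54.AP.Mxs

/-!
# [H54 AP EXT] An edge with label `4` all of whose side has labels at most `3` (50 min)

`exists_ext`: among all `(b, c, U)` with `M b c = 4` and `U` the set of the `y` with `ReflTransGen (fun x y => 3 ≤ M x y ∧ ¬ (x = b ∧ y = c) ∧ ¬ (x = c ∧ y = b)) b y` (this set is a side: `exists_brg` in `H54/LK/Fst`, see its proof) choose one with `U.ncard` minimal. Suppose
`i, j ∈ U`, `M i j = 4`. The sides `V` of `i` (for the edge `i j`) and `V'` of `j` (for the edge `j i`), both defined by reachability, are disjoint (`hfo`; a path from `i` to `y` and one from `j` to `y`), so `b ∉ V` or `b ∉ V'`, say `b ∉ V'`. Then `V' ⊆ U`: along a path from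
`j ∈ U` (all its nodes are in `V'`, so they are different from `b`) the next node is in `U` again, because the only edge from `U` to its complement starts at `b` (`Brg.two`). `b ∈ U`, `b ∉ V'`: `V'.ncard < U.ncard` (`Set.ncard_lt_ncard`), a contradiction.
`n4_mu`: the map `(s, t) ↦ (pi s, pi t)` from the pairs with `Mu s t = 4` to the pairs with `M i j = 4`: `Mu (inl i) (inl j) = 4` gives `{i, j} ≠ {b, c}`, `M i j = 4`; `Mu (inr i) (inr j) = M i j = 4` is excluded by `hU`, mixed pairs have labels `2`, `3`. Injective, and `(b, c)` is not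
in the image (`Set.ncard_lt_ncard`, `Set.ncard_image_of_injective` or `Nat.card` with `Finite.card_subtype_lt`).
-/

set_option autoImplicit false

namespace Pool.Agent.H54.AP

open CoxeterSystem Pool.H8.CDW Pool.Agent.H52.PAG Pool.Agent.H75.INF Pool.Agent.H54.TF Pool.Agent.H54.AF Pool.Agent.H54.BS
  Pool.Agent.H54.CT Pool.Agent.H34.TG Pool.Agent.H54.LK Pool.Agent.H2.UF

variable {B : Type} {M : CoxeterMatrix B} {b c : B} {U : Set B}

/-- the number of the pairs with label `4` -/
noncomputable def n4 {B : Type} (M : CoxeterMatrix B) : ℕ := {p : B × B | M p.1 p.2 = 4}.ncard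

/-- the edges without `b c` -/
private def Ed (M : CoxeterMatrix B) (b c x y : B) : Prop := 3 ≤ M x y ∧ ¬ (x = b ∧ y = c) ∧ ¬ (x = c ∧ y = b)

private theorem ed_symm {b c x y : B} (h : Ed M b c x y) : Ed M b c y x :=
  ⟨by rw [M.symmetric]; exact h.1, fun e => h.2.2 ⟨e.2, e.1⟩, fun e => h.2.1 ⟨e.2, e.1⟩⟩

private theorem ed_swap {b c x y : B} (h : Ed M b c x y) : Ed M c b x y := ⟨h.1, h.2.2, h.2.1⟩

/-- the side of `b` -/
private def Tr (M : CoxeterMatrix B) (b c : B) : Set B := {y | Relation.ReflTransGen (Ed M b c) b y}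

private theorem tr_brg (hM : ∀ i j, M i j ≠ 0) (hfo : Forest M) {b c : B} (hbc : 3 ≤ M b c) : Brg M b c (Tr M b c) := by
  refine ⟨Relation.ReflTransGen.refl, hfo b c hbc, hbc, ?_⟩
  intro i hi j hj hij
  by_contra h2
  have hne : i ≠ j := by
    rintro rfl
    exact hj hi
  have h3 : 3 ≤ M i j := by
    have h0 := hM i j
    have h1 := M.off_diagonal i j hne
    omega
  refine hj (Relation.ReflTransGen.tail hi ⟨h3, hij, ?_⟩)
  rintro ⟨rfl, rfl⟩
  exact hj Relation.ReflTransGen.refl

private theorem tr_disj (hfo : Forest M) {i j y : B} (hij : 3 ≤ M i j) (h1 : y ∈ Tr M i j) (h2 : y ∈ Tr M j i) : False := by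
  refine hfo i j hij ?_
  have h2' : Relation.ReflTransGen (Ed M j i) j y := h2
  have h1' : Relation.ReflTransGen (Ed M i j) i y := h1
  clear h1 h2
  have h4 : ∀ z, Relation.ReflTransGen (Ed M i j) i y → Relation.ReflTransGen (Ed M j i) z y →
      Relation.ReflTransGen (Ed M i j) i z := by
    intro z ha hb
    induction hb using Relation.ReflTransGen.head_induction_on with
    | refl => exact ha
    | head h5 _ ih => exact ih.tail (ed_symm (ed_swap h5))
  exact h4 j h1' h2'

private theorem tr_lt [Finite B] (h : Brg M b c U) {i j : B} (hj : j ∈ U) (hb : b ∉ Tr M j i) :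
    (Tr M j i).ncard < U.ncard := by
  refine Set.ncard_lt_ncard ⟨fun y hy => ?_, fun hsub => hb (hsub h.left)⟩ (Set.toFinite _)
  have hy' : Relation.ReflTransGen (Ed M j i) j y := hy
  induction hy' with
  | refl => exact hj
  | @tail x y h1 h2 ih =>
    have hx := ih h1
    by_contra hyU
    have hxb : x ≠ b := by
      rintro rfl
      exact hb h1
    have h3 := h.two x hx y hyU fun e => hxb e.1
    have h4 := h2.1
    omega

theorem exists_ext [Finite B] (hM : ∀ i j, M i j ≠ 0) (hfo : Forest M) {b₀ c₀ : B} (h4 : M b₀ c₀ = 4) :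
    ∃ (b c : B) (U : Set B), Brg M b c U ∧ M b c = 4 ∧ ∀ i ∈ U, ∀ j ∈ U, M i j ≠ 4 := by
  classical
  have hex : ∃ n, ∃ b c, M b c = 4 ∧ (Tr M b c).ncard = n := ⟨_, b₀, c₀, h4, rfl⟩
  obtain ⟨b, c, hbc, hn⟩ := Nat.find_spec hex
  have hmin : ∀ i j, M i j = 4 → Nat.find hex ≤ (Tr M i j).ncard := fun i j h => Nat.find_min' hex ⟨i, j, h, rfl⟩
  have hB := tr_brg hM hfo (b := b) (c := c) (by omega)
  refine ⟨b, c, Tr M b c, hB, hbc, fun i hi j hj hij => ?_⟩
  have hji : M j i = 4 := by
    rw [M.symmetric]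
    exact hij
  have h1 : b ∉ Tr M i j ∨ b ∉ Tr M j i := by
    by_contra hcon
    push Not at hcon
    exact tr_disj hfo (by omega) hcon.1 hcon.2
  rcases h1 with h1 | h1
  · have h2 := tr_lt hB hi h1
    have h3 := hmin i j hij
    omega
  · have h2 := tr_lt hB hj h1
    have h3 := hmin j i hji
    omega

theorem n4_mu [Finite B] (h : Brg M b c U) (h4 : M b c = 4) (hU : ∀ i ∈ U, ∀ j ∈ U, M i j ≠ 4) : n4 (Mu h) < n4 M := by
  classical
  let f : (B ⊕ U) × (B ⊕ U) → B × B := fun p => (Sum.elim id Subtype.val p.1, Sum.elim id Subtype.val p.2)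
  have hcase : ∀ p : (B ⊕ U) × (B ⊕ U), Mu h p.1 p.2 = 4 → ∃ i j, p = (.inl i, .inl j) ∧ M i j = 4 ∧ ¬ (i = b ∧ j = c) := by
    rintro ⟨i | i, j | j⟩ hp
    · have hp' : Mu h (.inl i) (.inl j) = 4 := hp
      by_cases e : i = b ∧ j = c
      · obtain ⟨rfl, rfl⟩ := e
        rw [mu_bc] at hp'
        omega
      · by_cases e' : i = c ∧ j = b
        · obtain ⟨rfl, rfl⟩ := e'
          rw [mu_cb] at hp'
          omega
        · rw [mu_ll h e e'] at hp'
          exact ⟨i, j, rfl, hp', e⟩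
    · have hp' : Mu h (.inl i) (.inr j) = 4 := hp
      by_cases e : i = c ∧ j.1 = b
      · obtain ⟨rfl, e2⟩ := e
        have hj : j = ⟨b, h.left⟩ := Subtype.ext e2
        rw [hj, mu_cb'] at hp'
        omega
      · rw [mu_lr h e] at hp'
        omega
    · have hp' : Mu h (.inr i) (.inl j) = 4 := hp
      by_cases e : i.1 = b ∧ j = c
      · obtain ⟨e1, rfl⟩ := e
        have hi : i = ⟨b, h.left⟩ := Subtype.ext e1
        rw [hi, mu_bc'] at hp'
        omega
      · rw [mu_rl h e] at hp'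
        omega
    · have hp' : Mu h (.inr i) (.inr j) = 4 := hp
      rw [mu_rr] at hp'
      exact absurd hp' (hU i.1 i.2 j.1 j.2)
  have hinj : Set.InjOn f {p | Mu h p.1 p.2 = 4} := by
    intro p hp q hq hpq
    obtain ⟨i, j, rfl, -, -⟩ := hcase p hp
    obtain ⟨i', j', rfl, -, -⟩ := hcase q hq
    have h1 : i = i' := congrArg Prod.fst hpq
    have h2 : j = j' := congrArg Prod.snd hpq
    rw [h1, h2]
  have h1 : n4 (Mu h) = (f '' {p | Mu h p.1 p.2 = 4}).ncard := hinj.ncard_image.symm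
  rw [h1]
  refine Set.ncard_lt_ncard ⟨?_, fun hsub => ?_⟩ (Set.toFinite _)
  · rintro _ ⟨p, hp, rfl⟩
    obtain ⟨i, j, rfl, h2, -⟩ := hcase p hp
    exact h2
  · obtain ⟨p, hp, he⟩ := hsub (show ((b, c) : B × B) ∈ {p : B × B | M p.1 p.2 = 4} from h4)
    obtain ⟨i, j, rfl, -, h3⟩ := hcase p hp
    exact h3 ⟨congrArg Prod.fst he, congrArg Prod.snd he⟩

end Pool.Agent.H54.AP
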