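import Pool.Agent.H54.AP.Nv

/-!
# [H54 AP FIV] No label `5` in a diagram with a positive null vector (60 min)

`a i j = - cm M i j ≥ 0` for `i ≠ j`; `0` if the label is `2`, `≥ 1/2` if it is `≥ 3`, `= 1/2` if it is `3`, `≥ √2/2` (square `≥ 1/2`) if it is `≥ 4`, `(1 + √5)/4 =: g` if it is `5`, `g^2 = (3 + √5)/8`. (For labels `≥ 4`:
`cos (π / 4) ≤ cos (π / m)`.) `h`: `y i = ∑_(j ≠ i) a i j * y j`.
(X) Let `i ≠ p` and `r = y i - a i p * y p = ∑_(j ≠ i, p) a i j * y j`. Then `r ≥ 0`; if `r > 0` there is `j ≠ i, p` with `3 ≤ M i j`. For every such `j`: `y j ≥ a i j * y i` (the equation at `j`), so `r ≥ a i j * y j ≥ (a i j)^2 * y i ≥ y i / 4`;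
for two different ones: `r ≥ ((a i j)^2 + (a i j')^2) * y i ≥ y i / 2`. If `r < y i / 2` and `r > 0` then exactly one `j` with `3 ≤ M i j`, its label is `3` (a label `≥ 4` gives `r ≥ y i / 2`), and `r = y j / 2`.
(1) `M b c = 5`. `r_b = y b - g y c`, `r_c = y c - g y b`. Both `> 0`: `(3/4) y b ≥ g y c`, `(3/4) y c ≥ g y b`, so `9/16 ≥ g^2`, false. Both `0`: `g^2 = 1`, false. By symmetry `r_b = 0`, `r_c > 0`: `y b = g y c`, `r_c = (1 - g^2) y c = (5 - √5)/8 * y c < y c / 2`.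
By (X) there is `w` with `y w = 2 r_c = (5 - √5)/4 * y c`, `M c w = 3`, `w ≠ b`.
(2) At `w` with `p = c`: `r_w = y w - y c / 2 = (3 - √5)/4 * y c > 0`, `r_w / y w = (3 - √5)/(5 - √5) < 1/2`. By (X) there is `z` with `M w z = 3`, `z ≠ c`, `y z = 2 r_w = (3 - √5)/2 * y c`.
(3) At `z` with `p = w`: `r_z = y z - y w / 2 = (7 - 3 √5)/8 * y c > 0`, so by (X) `r_z ≥ y z / 4 = (3 - √5)/8 * y c`, that is `4 ≥ 2 √5`, false (`√5 > 2`).
-/

set_option autoImplicit false

namespace Pool.Agent.H54.AP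

open CoxeterSystem Pool.H8.CDW Pool.Agent.H52.PAG Pool.Agent.H75.INF Pool.Agent.H54.TF Pool.Agent.H54.AF Pool.Agent.H54.BS
  Pool.Agent.H54.CT Pool.Agent.H34.TG Pool.Agent.H54.LK Pool.Agent.H2.UF

variable {B : Type} {M : CoxeterMatrix B}

private theorem fiv_eq [Fintype B] [DecidableEq B] {y : B → ℝ} (h : ∀ i, ∑ j, cm M i j * y j = 0) (i : B) :
    y i = ∑ j ∈ Finset.univ.erase i, (-cm M i j) * y j := by
  have h1 := Finset.add_sum_erase Finset.univ (fun j => cm M i j * y j) (Finset.mem_univ i)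
  rw [h i] at h1
  simp only [cm_self, one_mul] at h1
  simp only [neg_mul, Finset.sum_neg_distrib]
  linarith

private theorem fiv_nn {y : B → ℝ} (hM : ∀ i j, M i j ≠ 0) (hy : ∀ i, 0 < y i) {i j : B} (hij : i ≠ j) :
    0 ≤ (-cm M i j) * y j :=
  mul_nonneg (by linarith [cm_nonpos hij (hM i j)]) (hy j).le

private theorem fiv_le [Fintype B] {y : B → ℝ} (hM : ∀ i j, M i j ≠ 0) (hy : ∀ i, 0 < y i)
    (h : ∀ i, ∑ j, cm M i j * y j = 0) {i j : B} (hij : i ≠ j) : (-cm M i j) * y j ≤ y i := by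
  classical
  conv_rhs => rw [fiv_eq h i]
  exact Finset.single_le_sum (f := fun j => (-cm M i j) * y j)
    (fun k hk => fiv_nn hM hy (Finset.ne_of_mem_erase hk).symm) (Finset.mem_erase.2 ⟨hij.symm, Finset.mem_univ _⟩)

private theorem fiv_r [Fintype B] [DecidableEq B] {y : B → ℝ} (h : ∀ i, ∑ j, cm M i j * y j = 0) {i p : B} (hip : i ≠ p) :
    y i - (-cm M i p) * y p = ∑ j ∈ (Finset.univ.erase i).erase p, (-cm M i j) * y j := by
  have h1 := Finset.add_sum_erase (Finset.univ.erase i) (fun j => (-cm M i j) * y j)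
    (Finset.mem_erase.2 ⟨hip.symm, Finset.mem_univ p⟩)
  rw [← fiv_eq h i] at h1
  linarith

private theorem fiv_sq [Fintype B] {y : B → ℝ} (hM : ∀ i j, M i j ≠ 0) (hy : ∀ i, 0 < y i)
    (h : ∀ i, ∑ j, cm M i j * y j = 0) {i j : B} (hij : i ≠ j) : (cm M i j) ^ 2 * y i ≤ (-cm M i j) * y j := by
  have h1 := fiv_le hM hy h hij.symm
  rw [cm_symm j i] at h1
  have h2 : 0 ≤ -cm M i j := by linarith [cm_nonpos hij (hM i j)]
  nlinarith [mul_le_mul_of_nonneg_left h1 h2]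

private theorem fiv_ex [Fintype B] {y : B → ℝ} (hM : ∀ i j, M i j ≠ 0)
    (h : ∀ i, ∑ j, cm M i j * y j = 0) {i p : B} (hip : i ≠ p) (hr : 0 < y i - (-cm M i p) * y p) :
    ∃ j, i ≠ j ∧ j ≠ p ∧ 3 ≤ M i j := by
  classical
  rw [fiv_r h hip] at hr
  obtain ⟨j, hj, hj'⟩ := Finset.exists_ne_zero_of_sum_ne_zero (ne_of_gt hr)
  rw [Finset.mem_erase, Finset.mem_erase] at hj
  refine ⟨j, hj.2.1.symm, hj.1, ?_⟩
  have h1 := M.off_diagonal i j hj.2.1.symm
  have h2 := hM i j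
  by_contra h3
  have h4 : M i j = 2 := by omega
  rw [cm_two h4, neg_zero, zero_mul] at hj'
  exact hj' rfl

private theorem fiv_one [Fintype B] {y : B → ℝ} (hM : ∀ i j, M i j ≠ 0) (hy : ∀ i, 0 < y i)
    (h : ∀ i, ∑ j, cm M i j * y j = 0) {i p j : B} (hip : i ≠ p) (hij : i ≠ j) (hjp : j ≠ p) :
    (cm M i j) ^ 2 * y i ≤ y i - (-cm M i p) * y p := by
  classical
  rw [fiv_r h hip]
  refine (fiv_sq hM hy h hij).trans ?_
  refine Finset.single_le_sum (f := fun j => (-cm M i j) * y j) (fun k hk => ?_) ?_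
  · exact fiv_nn hM hy (Finset.ne_of_mem_erase (Finset.mem_of_mem_erase hk)).symm
  · exact Finset.mem_erase.2 ⟨hjp, Finset.mem_erase.2 ⟨hij.symm, Finset.mem_univ _⟩⟩

private theorem fiv_two [Fintype B] {y : B → ℝ} (hM : ∀ i j, M i j ≠ 0) (hy : ∀ i, 0 < y i)
    (h : ∀ i, ∑ j, cm M i j * y j = 0) {i p j k : B} (hip : i ≠ p) (hij : i ≠ j) (hjp : j ≠ p) (hik : i ≠ k)
    (hkp : k ≠ p) (hjk : j ≠ k) :
    (cm M i j) ^ 2 * y i + (cm M i k) ^ 2 * y i ≤ y i - (-cm M i p) * y p := by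
  classical
  rw [fiv_r h hip]
  refine (add_le_add (fiv_sq hM hy h hij) (fiv_sq hM hy h hik)).trans ?_
  have h1 : ({j, k} : Finset B) ⊆ (Finset.univ.erase i).erase p := by
    intro l hl
    rw [Finset.mem_insert, Finset.mem_singleton] at hl
    rcases hl with rfl | rfl
    · exact Finset.mem_erase.2 ⟨hjp, Finset.mem_erase.2 ⟨hij.symm, Finset.mem_univ _⟩⟩
    · exact Finset.mem_erase.2 ⟨hkp, Finset.mem_erase.2 ⟨hik.symm, Finset.mem_univ _⟩⟩
  have h2 := Finset.sum_le_sum_of_subset_of_nonneg (f := fun j => (-cm M i j) * y j) h1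
    (fun l hl _ => fiv_nn hM hy (Finset.ne_of_mem_erase (Finset.mem_of_mem_erase hl)).symm)
  rw [Finset.sum_pair hjk] at h2
  exact h2

private theorem fiv_q {i j : B} (hj : 3 ≤ M i j) : 1 / 4 ≤ (cm M i j) ^ 2 := by
  have := cm_le hj
  nlinarith

private theorem fiv_h {i j : B} (hj : 4 ≤ M i j) : 1 / 2 ≤ (cm M i j) ^ 2 := by
  have h1 : (4 : ℝ) ≤ M i j := by exact_mod_cast hj
  have h2 : Real.pi / M i j ≤ Real.pi / 4 := div_le_div_of_nonneg_left Real.pi_pos.le (by norm_num) h1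
  have h3 : Real.cos (Real.pi / 4) ≤ Real.cos (Real.pi / M i j) :=
    Real.cos_le_cos_of_nonneg_of_le_pi (div_nonneg Real.pi_pos.le (by positivity)) (by
      have := Real.pi_pos
      linarith) h2
  rw [Real.cos_pi_div_four] at h3
  have h4 : √2 ^ 2 = 2 := Real.sq_sqrt (by norm_num)
  have h5 : 0 ≤ √2 := Real.sqrt_nonneg _
  unfold cm
  nlinarith

/-- (X), first part -/
private theorem fiv_x1 [Fintype B] {y : B → ℝ} (hM : ∀ i j, M i j ≠ 0) (hy : ∀ i, 0 < y i)
    (h : ∀ i, ∑ j, cm M i j * y j = 0) {i p : B} (hip : i ≠ p) (hr : 0 < y i - (-cm M i p) * y p) :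
    1 / 4 * y i ≤ y i - (-cm M i p) * y p := by
  obtain ⟨j, hij, hjp, h3⟩ := fiv_ex hM h hip hr
  exact (mul_le_mul_of_nonneg_right (fiv_q h3) (hy i).le).trans (fiv_one hM hy h hip hij hjp)

/-- (X), second part -/
private theorem fiv_x2 [Fintype B] {y : B → ℝ} (hM : ∀ i j, M i j ≠ 0) (hy : ∀ i, 0 < y i)
    (h : ∀ i, ∑ j, cm M i j * y j = 0) {i p : B} (hip : i ≠ p) (hr : 0 < y i - (-cm M i p) * y p)
    (hr' : y i - (-cm M i p) * y p < 1 / 2 * y i) :
    ∃ j, i ≠ j ∧ j ≠ p ∧ M i j = 3 ∧ y i - (-cm M i p) * y p = 1 / 2 * y j := by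
  classical
  obtain ⟨j, hij, hjp, h3⟩ := fiv_ex hM h hip hr
  have h4 : M i j = 3 := by
    by_contra hne
    have h5 : 4 ≤ M i j := by omega
    have h6 := (mul_le_mul_of_nonneg_right (fiv_h h5) (hy i).le).trans (fiv_one hM hy h hip hij hjp)
    linarith
  refine ⟨j, hij, hjp, h4, ?_⟩
  rw [fiv_r h hip, Finset.sum_eq_single j]
  · rw [cm_three h4]
    ring
  · intro k hk hkj
    rw [Finset.mem_erase, Finset.mem_erase] at hk
    have h5 : M i k = 2 := by
      by_contra hne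
      have h6 := M.off_diagonal i k hk.2.1.symm
      have h7 := hM i k
      have h8 : 3 ≤ M i k := by omega
      have h9 := fiv_two hM hy h hip hij hjp hk.2.1.symm hk.1 hkj.symm
      have h10 := mul_le_mul_of_nonneg_right (fiv_q h3) (hy i).le
      have h11 := mul_le_mul_of_nonneg_right (fiv_q h8) (hy i).le
      linarith
    rw [cm_two h5, neg_zero, zero_mul]
  · intro hj
    exact absurd (Finset.mem_erase.2 ⟨hjp, Finset.mem_erase.2 ⟨hij.symm, Finset.mem_univ _⟩⟩) hj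

private theorem fiv_aux [Fintype B] {y : B → ℝ} (hM : ∀ i j, M i j ≠ 0) (hy : ∀ i, 0 < y i)
    (h : ∀ i, ∑ j, cm M i j * y j = 0) {b c : B} (h5 : M b c = 5) (hb : y b = (1 + √5) / 4 * y c) : False := by
  have hs : √5 ^ 2 = 5 := Real.sq_sqrt (by norm_num)
  have hs2 : 2 < √5 := by
    have h0 := Real.sqrt_nonneg 5
    nlinarith
  have hs3 : √5 < 7 / 3 := by nlinarith
  have hbc : b ≠ c := by
    rintro rfl
    rw [M.diagonal] at h5
    omega
  have h5' : M c b = 5 := by rw [M.symmetric]; exact h5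
  have hyc := hy c
  have e1 : y c - (-cm M c b) * y b = (5 - √5) / 8 * y c := by
    rw [cm_five h5', hb]
    linear_combination (-1 / 16) * y c * hs
  obtain ⟨w, hcw, hwb, hw3, ew⟩ := fiv_x2 hM hy h hbc.symm (by rw [e1]; exact mul_pos (by linarith) hyc) (by
    rw [e1]
    exact mul_lt_mul_of_pos_right (by linarith) hyc)
  rw [e1] at ew
  have hw3' : M w c = 3 := by rw [M.symmetric]; exact hw3
  have e2 : y w - (-cm M w c) * y c = (3 - √5) / 4 * y c := by
    rw [cm_three hw3']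
    linarith
  have hyw : y w = (5 - √5) / 4 * y c := by linarith
  obtain ⟨z, hwz, hzc, hz3, ez⟩ := fiv_x2 hM hy h hcw.symm (by rw [e2]; exact mul_pos (by linarith) hyc) (by
    rw [e2, hyw, ← mul_assoc]
    exact mul_lt_mul_of_pos_right (by linarith) hyc)
  rw [e2] at ez
  have hz3' : M z w = 3 := by rw [M.symmetric]; exact hz3
  have hyz : y z = (3 - √5) / 2 * y c := by linarith
  have e3 : y z - (-cm M z w) * y w = (7 - 3 * √5) / 8 * y c := by
    rw [cm_three hz3', hyz, hyw]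
    ring
  have h6 := fiv_x1 hM hy h hwz.symm (by rw [e3]; exact mul_pos (by linarith) hyc)
  rw [e3, hyz, ← mul_assoc] at h6
  have h7 := le_of_mul_le_mul_right h6 hyc
  linarith

theorem no_five [Fintype B] (hM : ∀ i j, M i j ≠ 0) {y : B → ℝ} (hy : ∀ i, 0 < y i) (h : ∀ i, ∑ j, cm M i j * y j = 0)
    (b c : B) : M b c ≠ 5 := by
  intro h5
  have hs : √5 ^ 2 = 5 := Real.sq_sqrt (by norm_num)
  have hs2 : 2 < √5 := by
    have h0 := Real.sqrt_nonneg 5
    nlinarith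
  have hbc : b ≠ c := by
    rintro rfl
    rw [M.diagonal] at h5
    omega
  have h5' : M c b = 5 := by rw [M.symmetric]; exact h5
  have hyb := hy b
  have hyc := hy c
  have nb := fiv_le hM hy h hbc
  have nc := fiv_le hM hy h hbc.symm
  rw [cm_five h5, neg_neg] at nb
  rw [cm_five h5', neg_neg] at nc
  rcases eq_or_lt_of_le nb with e | l
  · exact fiv_aux hM hy h h5 e.symm
  · rcases eq_or_lt_of_le nc with e' | l'
    · exact fiv_aux hM hy h h5' e'.symm
    · have r1 := fiv_x1 hM hy h hbc (by rw [cm_five h5, neg_neg]; linarith)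
      have r2 := fiv_x1 hM hy h hbc.symm (by rw [cm_five h5', neg_neg]; linarith)
      rw [cm_five h5, neg_neg] at r1
      rw [cm_five h5', neg_neg] at r2
      have g0 : 0 < (1 + √5) / 4 := by linarith
      have g1 : 3 / 4 < (1 + √5) / 4 := by linarith
      have t1 : (1 + √5) / 4 * y c ≤ 3 / 4 * y b := by linarith
      have t2 : (1 + √5) / 4 * y b ≤ 3 / 4 * y c := by linarith
      have t3 := mul_lt_mul_of_pos_right g1 hyc
      have t4 := mul_lt_mul_of_pos_right g1 hyb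
      linarith

end Pool.Agent.H54.AP
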