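import Pool.Agent.H54.LK.Fst
import Pool.Agent.H2.UF.Mtx
import Pool.Agent.H54.CT.Ds

/-!
# [H54 AP] The cosine matrix of a Coxeter matrix. Definitions

`cm M i j = - cos (π / M i j)`, `bf M x y = ∑ x_i y_j cm_ij`, `qf M x = bf M x x`. `Psd M`: all finite sums are `≥ 0` (finite or affine type if `M` is finite and irreducible).
-/

set_option autoImplicit false

namespace Pool.Agent.H54.AP

open Pool.H8.CDW Pool.Agent.H52.PAG Pool.Agent.H75.INF Pool.Agent.H54.TF

variable {B : Type}

/-- the cosine matrix -/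
noncomputable def cm (M : CoxeterMatrix B) (i j : B) : ℝ := - Real.cos (Real.pi / M i j)

/-- the bilinear form -/
noncomputable def bf [Fintype B] (M : CoxeterMatrix B) (x y : B → ℝ) : ℝ := ∑ i, ∑ j, x i * y j * cm M i j

/-- the quadratic form -/
noncomputable def qf [Fintype B] (M : CoxeterMatrix B) (x : B → ℝ) : ℝ := bf M x x

/-- the cosine matrix is positive semidefinite -/
def Psd (M : CoxeterMatrix B) : Prop := ∀ (s : Finset B) (x : B → ℝ), 0 ≤ ∑ i ∈ s, ∑ j ∈ s, x i * x j * -Real.cos (Real.pi / M i j)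

variable {M : CoxeterMatrix B}

theorem cm_symm (i j : B) : cm M i j = cm M j i := by
  unfold cm
  rw [M.symmetric]

theorem cm_self (i : B) : cm M i i = 1 := by
  unfold cm
  rw [M.diagonal, Nat.cast_one, div_one, Real.cos_pi, neg_neg]

theorem cm_two {i j : B} (h : M i j = 2) : cm M i j = 0 := by
  unfold cm
  rw [h]
  push_cast
  rw [Real.cos_pi_div_two, neg_zero]

theorem cm_three {i j : B} (h : M i j = 3) : cm M i j = -(1 / 2) := by
  unfold cm
  rw [h]
  push_cast
  rw [Real.cos_pi_div_three]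

theorem cm_four {i j : B} (h : M i j = 4) : cm M i j = -(√2 / 2) := by
  unfold cm
  rw [h]
  push_cast
  rw [Real.cos_pi_div_four]

theorem cm_five {i j : B} (h : M i j = 5) : cm M i j = -((1 + √5) / 4) := by
  unfold cm
  rw [h]
  push_cast
  rw [Real.cos_pi_div_five]

/-- larger labels -/
theorem cm_le {i j : B} (h : 3 ≤ M i j) : cm M i j ≤ -(1 / 2) := by
  unfold cm
  have h1 : (3 : ℝ) ≤ M i j := by exact_mod_cast h
  have h2 : Real.pi / M i j ≤ Real.pi / 3 := div_le_div_of_nonneg_left Real.pi_pos.le (by norm_num) h1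
  have h3 : Real.cos (Real.pi / 3) ≤ Real.cos (Real.pi / M i j) :=
    Real.cos_le_cos_of_nonneg_of_le_pi (div_nonneg Real.pi_pos.le (by positivity)) (by
      have := Real.pi_pos
      linarith) h2
  rw [Real.cos_pi_div_three] at h3
  linarith

/-- labels different from `2`, `3` -/
theorem cm_lt {i j : B} (h : 4 ≤ M i j) : cm M i j < -(1 / 2) := by
  unfold cm
  have h1 : (4 : ℝ) ≤ M i j := by exact_mod_cast h
  have h2 : Real.pi / M i j ≤ Real.pi / 4 := div_le_div_of_nonneg_left Real.pi_pos.le (by norm_num) h1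
  have h3 : Real.cos (Real.pi / 3) < Real.cos (Real.pi / M i j) := by
    have h4 := Real.pi_pos
    refine Real.cos_lt_cos_of_nonneg_of_le_pi (div_nonneg Real.pi_pos.le (by positivity)) ?_ ?_
    · linarith
    · linarith
  rw [Real.cos_pi_div_three] at h3
  linarith

theorem cm_nonpos {i j : B} (hij : i ≠ j) (h0 : M i j ≠ 0) : cm M i j ≤ 0 := by
  have h1 := M.off_diagonal i j hij
  rcases Nat.lt_or_ge (M i j) 3 with h2 | h2
  · rw [cm_two (by omega)]
  · have := cm_le h2
    linarith

theorem cm_neg {i j : B} (h : 3 ≤ M i j) : cm M i j < 0 := by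
  have := cm_le h
  linarith

theorem bf_symm [Fintype B] (x y : B → ℝ) : bf M x y = bf M y x := by
  unfold bf
  rw [Finset.sum_comm]
  refine Finset.sum_congr rfl fun i _ => Finset.sum_congr rfl fun j _ => ?_
  rw [cm_symm]
  ring

theorem bf_add_left [Fintype B] (x x' y : B → ℝ) : bf M (x + x') y = bf M x y + bf M x' y := by
  unfold bf
  rw [← Finset.sum_add_distrib]
  refine Finset.sum_congr rfl fun i _ => ?_
  rw [← Finset.sum_add_distrib]
  refine Finset.sum_congr rfl fun j _ => ?_
  rw [Pi.add_apply]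
  ring

theorem bf_smul_left [Fintype B] (a : ℝ) (x y : B → ℝ) : bf M (a • x) y = a * bf M x y := by
  unfold bf
  rw [Finset.mul_sum]
  refine Finset.sum_congr rfl fun i _ => ?_
  rw [Finset.mul_sum]
  refine Finset.sum_congr rfl fun j _ => ?_
  rw [Pi.smul_apply, smul_eq_mul]
  ring

theorem bf_add_right [Fintype B] (x y y' : B → ℝ) : bf M x (y + y') = bf M x y + bf M x y' := by
  rw [bf_symm, bf_add_left, bf_symm y, bf_symm y']

theorem bf_smul_right [Fintype B] (a : ℝ) (x y : B → ℝ) : bf M x (a • y) = a * bf M x y := by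
  rw [bf_symm, bf_smul_left, bf_symm y]

theorem qf_add [Fintype B] (x y : B → ℝ) : qf M (x + y) = qf M x + 2 * bf M x y + qf M y := by
  unfold qf
  rw [bf_add_left, bf_add_right, bf_add_right, bf_symm y x]
  ring

theorem qf_smul [Fintype B] (a : ℝ) (x : B → ℝ) : qf M (a • x) = a ^ 2 * qf M x := by
  unfold qf
  rw [bf_smul_left, bf_smul_right]
  ring

/-- the value of the form against a basis vector -/
theorem bf_single [Fintype B] [DecidableEq B] (i : B) (y : B → ℝ) : bf M (Pi.single i 1) y = ∑ j, cm M i j * y j := by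
  unfold bf
  rw [Finset.sum_eq_single i]
  · refine Finset.sum_congr rfl fun j _ => ?_
    rw [Pi.single_eq_same]
    ring
  · intro k _ hk
    refine Finset.sum_eq_zero fun j _ => ?_
    rw [Pi.single_eq_of_ne hk]
    ring
  · intro h
    exact absurd (Finset.mem_univ i) h

theorem psd_iff [Fintype B] : Psd M ↔ ∀ x : B → ℝ, 0 ≤ qf M x := by
  classical
  constructor
  · intro h x
    exact h Finset.univ x
  · intro h s x
    obtain ⟨y, hy, hy'⟩ : ∃ y : B → ℝ, (∀ i ∈ s, y i = x i) ∧ ∀ i, i ∉ s → y i = 0 :=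
      ⟨fun i => if i ∈ s then x i else 0, fun i hi => if_pos hi, fun i hi => if_neg hi⟩
    have e : qf M y = ∑ i ∈ s, ∑ j ∈ s, x i * x j * -Real.cos (Real.pi / M i j) := by
      unfold qf bf cm
      rw [← Finset.sum_subset (Finset.subset_univ s)]
      · refine Finset.sum_congr rfl fun i hi => ?_
        rw [← Finset.sum_subset (Finset.subset_univ s)]
        · refine Finset.sum_congr rfl fun j hj => ?_
          rw [hy i hi, hy j hj]
        · intro j _ hj
          rw [hy' j hj, mul_zero, zero_mul]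
      · intro i _ hi
        refine Finset.sum_eq_zero fun j _ => ?_
        rw [hy' i hi, zero_mul, zero_mul]
    rw [← e]
    exact h y

theorem Psd.congr {B B' : Type} {M : CoxeterMatrix B} {M' : CoxeterMatrix B'} (e : B ≃ B') (he : ∀ i j, M' (e i) (e j) = M i j)
    (h : Psd M) : Psd M' := by
  intro s x
  have h1 := h (s.map e.symm.toEmbedding) (x ∘ e)
  rw [Finset.sum_map] at h1
  have e1 : ∀ i ∈ s, (∑ j ∈ s.map e.symm.toEmbedding, (x ∘ e) (e.symm.toEmbedding i) * (x ∘ e) j *
      -Real.cos (Real.pi / M (e.symm.toEmbedding i) j)) = ∑ j ∈ s, x i * x j * -Real.cos (Real.pi / M' i j) := by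
    intro i _
    rw [Finset.sum_map]
    refine Finset.sum_congr rfl fun j _ => ?_
    have h2 := he (e.symm i) (e.symm j)
    rw [e.apply_symm_apply, e.apply_symm_apply] at h2
    show x (e (e.symm i)) * x (e (e.symm j)) * -Real.cos (Real.pi / M (e.symm i) (e.symm j)) = _
    rw [e.apply_symm_apply, e.apply_symm_apply, h2]
  rwa [Finset.sum_congr rfl e1] at h1

end Pool.Agent.H54.AP
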