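import Pool.Agent.H54.AF.Fnt
import Pool.Agent.H54.AP.Qf

/-!
# [H54 AP FNT] Reduction of the class to the positive semidefinite diagrams
-/

set_option autoImplicit false

namespace Pool.Agent.H54.AP

open CoxeterSystem Pool.H8.CDW Pool.Agent.H52.PAG Pool.Agent.H75.INF Pool.Agent.H34.TG Pool.Agent.H65.LR Pool.Agent.H98.FJ
  Pool.Agent.H54.CX Pool.Agent.H54.TF Pool.Agent.H52.VK Pool.Agent.H54.AF
open Pool.Agent.H65.FIN (Sp3 lab_two lab_sum)
open Pool.Agent.H54.AR (rst rst_apply)

/-- the hypothesis on the sets with spherical triples -/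
def PsdW {B : Type} (M : CoxeterMatrix B) : Prop := ∀ T : Set B, Irr M T → 3 ≤ T.ncard → Sp3 M T → Psd (resM M T)

/-- the girth of the links -/
def GirPsd : Prop := ∀ (B : Type) [Finite B] (M : CoxeterMatrix B), (∀ i j, M i j ≠ 0) → PsdW M →
  ∀ a b c : B, a ≠ b → a ≠ c → b ≠ c → Gir (ap M ({a, b}ᶜ : Set B)) (ap M ({a, c}ᶜ : Set B)) (lab (M b c))

variable {C : (G : Type) → [Group G] → Prop}

/-- the hypothesis of the theorem -/
def HypP (C : (G : Type) → [Group G] → Prop) {B : Type} (M : CoxeterMatrix B) : Prop := ∀ T : Set B, Irr M T →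
  3 ≤ T.ncard → Sp3 M T → Psd (resM M T) ∧ C (Art (resM M T))

/-- a subset -/
theorem HypP.res (hC : Inherits C) {B : Type} {M : CoxeterMatrix B} (h : HypP C M) (S : Set B) : HypP C (resM M S) := by
  intro T hI hT3 hT
  have h1 : Irr M (Subtype.val '' T) := by
    intro L hL hne hLT
    obtain ⟨i, hi, j, hj, hjL, hij⟩ := hI (Subtype.val ⁻¹' L) (fun x hx => by
        obtain ⟨y, hy, hyx⟩ := hL hx
        rwa [Subtype.ext hyx] at hy) (by
        obtain ⟨x, hx⟩ := hne
        obtain ⟨y, _, rfl⟩ := hL hx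
        exact ⟨y, hx⟩) (by
        intro h4
        apply hLT
        refine Set.Subset.antisymm hL ?_
        rintro _ ⟨y, hy, rfl⟩
        rw [← h4] at hy
        exact hy)
    exact ⟨i.1, hi, j.1, ⟨j, hj, rfl⟩, hjL, hij⟩
  have h2 : 3 ≤ (Subtype.val '' T).ncard := by
    rwa [Set.ncard_image_of_injective _ Subtype.val_injective]
  have h3 : Sp3 M (Subtype.val '' T) := by
    rintro _ ⟨i, hi, rfl⟩ _ ⟨j, hj, rfl⟩ _ ⟨k, hk, rfl⟩ hij hjk hik
    exact hT i hi j hj k hk (fun e => hij (congrArg _ e)) (fun e => hjk (congrArg _ e)) (fun e => hik (congrArg _ e))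
  obtain ⟨h4, h5⟩ := h _ h1 h2 h3
  let e : T ≃ (Subtype.val '' T : Set B) := Equiv.Set.image Subtype.val T Subtype.val_injective
  have hlab : ∀ i j, resM M (Subtype.val '' T) (e i) (e j) = resM (resM M S) T i j := fun i j => rfl
  constructor
  · exact h4.congr e.symm fun i j => by
      rw [← hlab, e.apply_symm_apply, e.apply_symm_apply]
  · obtain ⟨f⟩ := art_congr (resM M (Subtype.val '' T)) (resM (resM M S) T) e.symm fun i j => by
      rw [← hlab, e.apply_symm_apply, e.apply_symm_apply]
    exact hC.iso _ _ f h5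

theorem HypP.psdW {B : Type} {M : CoxeterMatrix B} (h : HypP C M) : PsdW M := fun T h1 h2 h3 => (h T h1 h2 h3).1

theorem psd_fin (hC : Inherits C) (hE : Extension C) (hcat : Cat2 C) (hGL : ∀ n : ℕ, C (GL (Fin n) ℤ)) (hG : GirPsd)
    (n : ℕ) : ∀ (B : Type) [Finite B] (M : CoxeterMatrix B), Nat.card B = n → (∀ i j, M i j ≠ 0) →
    HypP C M → C (Art M) := by
  classical
  induction n using Nat.strong_induction_on with
  | _ n ih =>
    intro B _ M hn h0 hM
    by_cases h3 : 3 ≤ Nat.card B
    swap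
    · refine Pool.Agent.H52.T2.two_dim_mem hC hE hcat hGL B M ?_
      intro i j k hij hjk hik
      exfalso
      apply h3
      have h4 : Set.ncard ({i, j, k} : Set B) = 3 := by
        rw [Set.ncard_insert_of_notMem (by
          rintro (h | h)
          · exact hij h
          · exact hik h) (Set.toFinite _), Set.ncard_pair hjk]
      rw [← h4, ← Set.ncard_univ]
      exact Set.ncard_le_ncard (Set.subset_univ _) Set.finite_univ
    have hlab2 : ∀ i j, i ≠ j → 2 ≤ M i j := fun i j h => by
      have h1 := M.off_diagonal i j h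
      have h2 := h0 i j
      omega
    have hJ : ∀ J : Set B, J ≠ Set.univ → C (ap M J) := by
      intro J hJ
      refine ap_of_res M hC (ih (Nat.card J) ?_ J (resM M J) rfl (fun i j => h0 i.1 j.1) (hM.res hC J))
      rw [← hn, Nat.card_coe_set_eq, ← Set.ncard_univ]
      exact Set.ncard_lt_ncard (Set.ssubset_univ_iff.2 hJ) Set.finite_univ
    refine irr_mem hC hE hGL B M fun K _ hirr => ?_
    by_cases hK : (K : Set B) = Set.univ
    swap
    · obtain ⟨e⟩ := art_congr (resM M (K : Set B)) (rst M K) (Equiv.refl _) fun i j => rfl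
      exact hC.iso _ _ e (res_of_ap M hC (hJ _ hK))
    have hK' : ∀ x, x ∈ K := fun x => by
      have : x ∈ (K : Set B) := by rw [hK]; exact Set.mem_univ x
      exact this
    obtain ⟨e⟩ := art_congr (rst M K) M ⟨fun x => x.1, fun x => ⟨x, hK' x⟩, fun _ => rfl, fun _ => rfl⟩ fun i j => rfl
    refine hC.iso _ _ e.symm ?_
    by_cases hS : Sp3 M Set.univ
    · have hI : Irr M Set.univ := by
        intro L _ hL hLu
        have hfin : L.Finite := Set.toFinite L
        obtain ⟨i, hi, j, _, hj, hij⟩ := hirr hfin.toFinset (fun x _ => hK' x) (by simpa using hL) (by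
          intro h4
          apply hLu
          rw [Set.eq_univ_iff_forall]
          intro x
          have h5 : x ∈ hfin.toFinset := by rw [h4]; exact hK' x
          exact (Set.Finite.mem_toFinset hfin).1 h5)
        exact ⟨i, (Set.Finite.mem_toFinset hfin).1 hi, j, Set.mem_univ _, fun h => hj ((Set.Finite.mem_toFinset hfin).2 h), hij⟩
      obtain ⟨f⟩ := art_congr (resM M Set.univ) M (Equiv.Set.univ _) fun i j => rfl
      exact hC.iso _ _ f (hM Set.univ hI (by rwa [Set.ncard_univ]) hS).2
    · unfold Sp3 at hS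
      push Not at hS
      obtain ⟨a, _, b, _, c, _, hab, hbc, hac, hs⟩ := hS
      refine step_f hC hE hcat hGL B M a b c (lab (M b c)) (lab (M a c)) (lab (M a b)) hab hbc hac (lab_two (hlab2 _ _ hbc))
        (lab_two (hlab2 _ _ hac)) (lab_two (hlab2 _ _ hab)) ?_ (hG B M h0 hM.psdW a b c hab hac hbc)
        (hG B M h0 hM.psdW b a c hab.symm hbc hac) (hG B M h0 hM.psdW c a b hac.symm hbc.symm hab) hJ
      have h5 := lab_sum (hlab2 _ _ hab) (hlab2 _ _ hbc) (hlab2 _ _ hac) hs
      linarith

end Pool.Agent.H54.AP
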