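import Pool.Agent.H54.AP.Mxs
import Pool.Agent.H54.CT.Ds
import Pool.Agent.H34.TG.Gr

/-!
# [H54 AP GDN] Descent of the girth (30 min)

`Gir P Q m`: no alternating product of length `0 < k < m` of elements `x r ∈ P`, `x r ∉ Q`, `y r ∈ Q`, `y r ∉ P` is `1`. Apply `hG` to `F.fa ∘ x`, `F.fa ∘ y` (`alp` commutes with homomorphisms, see `H2/UF` or prove by induction): memberships by `up` (H54/CT/Ds), `F.fa (x r) ∉ ap M' {t}ᶜ` by `d1`,
`F.fa (y r) ∉ ap M' {s}ᶜ` by `d2`.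
-/

set_option autoImplicit false

namespace Pool.Agent.H54.AP

open CoxeterSystem Pool.H8.CDW Pool.Agent.H52.PAG Pool.Agent.H75.INF Pool.Agent.H54.TF Pool.Agent.H54.AF Pool.Agent.H54.BS
  Pool.Agent.H54.CT Pool.Agent.H34.TG Pool.Agent.H54.LK Pool.Agent.H2.UF

variable {B B' : Type} {M : CoxeterMatrix B} {M' : CoxeterMatrix B'}

theorem gir_down {I : Iv M M'} {F : Fold M M'} (hF : FaV I F) {b c : B} {s t : B'} (hs : I.pi s = b) (ht : I.pi t = c) {m : ℕ}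
    (hG : Gir (ap M' ({s}ᶜ : Set B')) (ap M' ({t}ᶜ : Set B')) m)
    (d1 : ∀ x ∈ ap M ({b}ᶜ : Set B), F.fa x ∈ ap M' ({t}ᶜ : Set B') → x ∈ ap M ({c}ᶜ : Set B))
    (d2 : ∀ x ∈ ap M ({c}ᶜ : Set B), F.fa x ∈ ap M' ({s}ᶜ : Set B') → x ∈ ap M ({b}ᶜ : Set B)) :
    Gir (ap M ({b}ᶜ : Set B)) (ap M ({c}ᶜ : Set B)) m := by
  intro x y k h0 h4 hx hy e
  refine hG (fun r => F.fa (x r)) (fun r => F.fa (y r)) k h0 h4
    (fun r hr => ⟨up hF s hs (hx r hr).1, fun h => (hx r hr).2 (d1 _ (hx r hr).1 h)⟩)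
    (fun r hr => ⟨up hF t ht (hy r hr).1, fun h => (hy r hr).2 (d2 _ (hy r hr).1 h)⟩) ?_
  exact (alp_map F.fa x y k).symm.trans (by rw [e, map_one])

end Pool.Agent.H54.AP
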