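import Pool.Agent.H54.AP.Mxs

/-!
# [H54 AP MXF] The unfolded diagram is a forest, irreducible, with labels at most `4` (60 min)

`mu_ll` etc. from `Mxs`.
`lab_mu`: cases.
`irr_mu`: let `L` be a nonempty proper subset of `B ⊕ U`. If `inl '' univ ∩ L` is neither empty nor everything: `hI` for `{i | inl i ∈ L}`: `i`, `j` with `M i j ≠ 2`, and `Mu (inl i) (inl j)` is `M i j` or `3`. If all `inl i ∈ L`: `K = {i | ∃ hi : i ∈ U, inr ⟨i, hi⟩ ∉ L}` is
not empty, `c ∉ K`; `hI` for `K`: `i ∈ K`, `j ∉ K`, `M i j ≠ 2`. If `j ∈ U` then `inr j ∈ L`, `inr i ∉ L` (`mu_rr`, symmetry of the label); if `j ∉ U` then `i = b`, `j = c` (`h.two`), `inl c ∈ L`, `inr b ∉ L`, label `3` (`mu_cb'`). If no `inl i` is in `L`: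
`K = {i | ∃ hi : i ∈ U, inr ⟨i, hi⟩ ∈ L}`, the same.
`forest_mu`: `forest_of_brg`. Let `3 ≤ Mu s t`. Cases (also with `s`, `t` exchanged: `Brg.symm`):
 `(inl b, inl c)`: `T' = {inl x | x ∈ U}`. `(inr b, inl c)`: `T' = {inr x | x ∈ U}`.
 `(inl i, inl j)`, not `{b, c}`: then `3 ≤ M i j`, `exists_brg`: `T` with `Brg M i j T`. If `i ∉ U` or `j ∉ U` then both `∉ U` (`h.two`), `T' = {s | pi s ∈ T}`, `pi = Sum.elim id Subtype.val`: if `s ∈ T'`, `t ∉ T'`, `Mu s t ≠ 2` then `M (pi s) (pi t) ≠ 2`, so `(pi s, pi t) = (i, j)`,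
 `s = inl i`, `t = inl j`. If both are in `U`: if `b ∉ T`: `T' = {inl x | x ∈ T ∩ U}`; if `b ∈ T` the same with `i`, `j` exchanged and `Tᶜ` instead of `T` (`Brg.symm`), then `Brg.symm`.
 `(inr i, inr j)`: the same with `inr`.
-/

set_option autoImplicit false

namespace Pool.Agent.H54.AP

open CoxeterSystem Pool.H8.CDW Pool.Agent.H52.PAG Pool.Agent.H75.INF Pool.Agent.H54.TF Pool.Agent.H54.AF Pool.Agent.H54.BS
  Pool.Agent.H54.CT Pool.Agent.H34.TG Pool.Agent.H54.LK Pool.Agent.H2.UF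

variable {B : Type} {M : CoxeterMatrix B} {b c : B} {U : Set B}

private theorem mxf_ll (h : Brg M b c U) {i j : B} (hij : M i j ≠ 2) : Mu h (.inl i) (.inl j) ≠ 2 := by
  by_cases h1 : i = b ∧ j = c
  · obtain ⟨rfl, rfl⟩ := h1
    rw [mu_bc]
    decide
  · by_cases h2 : i = c ∧ j = b
    · obtain ⟨rfl, rfl⟩ := h2
      rw [mu_cb]
      decide
    · rw [mu_ll h h1 h2]
      exact hij

/-- the projection -/
private def mxp : B ⊕ U → B := Sum.elim id Subtype.val

private theorem mxf_pi (h : Brg M b c U) {s t : B ⊕ U} (hst : Mu h s t ≠ 2) : M (mxp s) (mxp t) ≠ 2 := by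
  have hbc : M b c ≠ 2 := by
    have := h.edge
    omega
  have hcb : M c b ≠ 2 := by
    rw [M.symmetric]
    exact hbc
  rcases s with i | i <;> rcases t with j | j
  · by_cases h1 : i = b ∧ j = c
    · obtain ⟨rfl, rfl⟩ := h1
      exact hbc
    · by_cases h2 : i = c ∧ j = b
      · obtain ⟨rfl, rfl⟩ := h2
        exact hcb
      · rw [mu_ll h h1 h2] at hst
        exact hst
  · by_cases h1 : i = c ∧ j.1 = b
    · show M i j.1 ≠ 2
      rw [h1.1, h1.2]
      exact hcb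
    · exact absurd (mu_lr h h1) hst
  · by_cases h1 : i.1 = b ∧ j = c
    · show M i.1 j ≠ 2
      rw [h1.1, h1.2]
      exact hbc
    · exact absurd (mu_rl h h1) hst
  · rw [mu_rr] at hst
    exact hst

private theorem mxf_bc (h : Brg M b c U) : Brg (Mu h) (.inl b) (.inl c) {s | ∃ x ∈ U, s = .inl x} where
  left := ⟨b, h.left, rfl⟩
  right := by
    rintro ⟨x, hx, e⟩
    exact h.right (by rw [Sum.inl.inj e]; exact hx)
  edge := by
    rw [mu_bc]
  two := by
    rintro _ ⟨x, hx, rfl⟩ t ht hst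
    have hxc : x ≠ c := by
      rintro rfl
      exact h.right hx
    rcases t with y | y
    · have hy : y ∉ U := fun hy => ht ⟨y, hy, rfl⟩
      have h1 : ¬ (x = b ∧ y = c) := fun e => hst ⟨by rw [e.1], by rw [e.2]⟩
      rw [mu_ll h h1 (fun e => hxc e.1)]
      exact h.two x hx y hy h1
    · exact mu_lr h (fun e => hxc e.1)

private theorem mxf_bc' (h : Brg M b c U) : Brg (Mu h) (.inr ⟨b, h.left⟩) (.inl c) {s | ∃ x : U, s = .inr x} where
  left := ⟨_, rfl⟩
  right := by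
    rintro ⟨x, e⟩
    cases e
  edge := by
    rw [mu_bc']
  two := by
    rintro _ ⟨x, rfl⟩ t ht hst
    rcases t with y | y
    · exact mu_rl h fun e => hst ⟨by rw [Sum.inr.injEq]; exact Subtype.ext e.1, by rw [e.2]⟩
    · exact absurd ⟨y, rfl⟩ ht

private theorem mxf_in (h : Brg M b c U) {i j : B} {T : Set B} (hT : Brg M i j T) (hi : i ∈ U) (hj : j ∈ U) (hb : b ∉ T) :
    Brg (Mu h) (.inl i) (.inl j) {s | ∃ x, x ∈ T ∧ x ∈ U ∧ s = .inl x} where
  left := ⟨i, hT.left, hi, rfl⟩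
  right := by
    rintro ⟨x, hx, _, e⟩
    exact hT.right (by rw [Sum.inl.inj e]; exact hx)
  edge := by
    have h1 : ¬ (i = b ∧ j = c) := fun e => h.right (e.2 ▸ hj)
    have h2 : ¬ (i = c ∧ j = b) := fun e => h.right (e.1 ▸ hi)
    rw [mu_ll h h1 h2]
    exact hT.edge
  two := by
    rintro _ ⟨x, hx, hxU, rfl⟩ t ht hst
    have hxc : x ≠ c := by
      rintro rfl
      exact h.right hxU
    have hxb : x ≠ b := by
      rintro rfl
      exact hb hx
    rcases t with y | y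
    · rw [mu_ll h (fun e => hxb e.1) (fun e => hxc e.1)]
      by_cases hy : y ∈ T
      · exact h.two x hxU y (fun hyU => ht ⟨y, hy, hyU, rfl⟩) (fun e => hxb e.1)
      · exact hT.two x hx y hy (fun e => hst ⟨by rw [e.1], by rw [e.2]⟩)
    · exact mu_lr h (fun e => hxc e.1)

private theorem mxf_inr (h : Brg M b c U) {i j : U} {T : Set B} (hT : Brg M i.1 j.1 T) (hb : b ∉ T) :
    Brg (Mu h) (.inr i) (.inr j) {s | ∃ x : U, x.1 ∈ T ∧ s = .inr x} where
  left := ⟨i, hT.left, rfl⟩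
  right := by
    rintro ⟨x, hx, e⟩
    exact hT.right (by rw [Sum.inr.inj e]; exact hx)
  edge := by
    rw [mu_rr]
    exact hT.edge
  two := by
    rintro _ ⟨x, hx, rfl⟩ t ht hst
    rcases t with y | y
    · exact mu_rl h fun e => hb (e.1 ▸ hx)
    · rw [mu_rr]
      exact hT.two x.1 hx y.1 (fun hy => ht ⟨y, hy, rfl⟩) (fun e => hst
        ⟨by rw [Sum.inr.injEq]; exact Subtype.ext e.1, by rw [Sum.inr.injEq]; exact Subtype.ext e.2⟩)

private theorem mxf_out (h : Brg M b c U) {i j : B} {T : Set B} (hT : Brg M i j T) (hi : i ∉ U) (hj : j ∉ U) :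
    Brg (Mu h) (.inl i) (.inl j) {s | mxp s ∈ T} where
  left := hT.left
  right := hT.right
  edge := by
    have h1 : ¬ (i = b ∧ j = c) := fun e => hi (e.1 ▸ h.left)
    have h2 : ¬ (i = c ∧ j = b) := fun e => hj (e.2 ▸ h.left)
    rw [mu_ll h h1 h2]
    exact hT.edge
  two := by
    intro s hs t ht hst
    by_contra h1
    have h2 := mxf_pi h h1
    by_cases h3 : mxp s = i ∧ mxp t = j
    · refine hst ⟨?_, ?_⟩
      · rcases s with x | x
        · exact congrArg Sum.inl h3.1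
        · exact absurd (show i ∈ U from h3.1 ▸ x.2) hi
      · rcases t with x | x
        · exact congrArg Sum.inl h3.2
        · exact absurd (show j ∈ U from h3.2 ▸ x.2) hj
    · exact h2 (hT.two _ hs _ ht h3)

theorem lab_mu (h : Brg M b c U) (hM : ∀ i j, M i j ≠ 0 ∧ M i j ≤ 4) (s t : B ⊕ U) : Mu h s t ≠ 0 ∧ Mu h s t ≤ 4 := by
  rcases s with i | i <;> rcases t with j | j
  · by_cases h1 : i = b ∧ j = c
    · obtain ⟨rfl, rfl⟩ := h1
      rw [mu_bc]
      decide
    · by_cases h2 : i = c ∧ j = b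
      · obtain ⟨rfl, rfl⟩ := h2
        rw [mu_cb]
        decide
      · rw [mu_ll h h1 h2]
        exact hM i j
  · by_cases h1 : i = c ∧ j.1 = b
    · obtain ⟨j, hj⟩ := j
      obtain ⟨rfl, rfl⟩ := h1
      rw [mu_cb']
      decide
    · rw [mu_lr h h1]
      decide
  · by_cases h1 : i.1 = b ∧ j = c
    · obtain ⟨i, hi⟩ := i
      obtain ⟨rfl, rfl⟩ := h1
      rw [mu_bc']
      decide
    · rw [mu_rl h h1]
      decide
  · rw [mu_rr]
    exact hM _ _

theorem irr_mu (h : Brg M b c U) (hI : Irr M Set.univ) : Irr (Mu h) Set.univ := by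
  intro L _ hne hL
  by_cases h1 : ∃ i, (.inl i : B ⊕ U) ∈ L
  · by_cases h2 : ∀ i, (.inl i : B ⊕ U) ∈ L
    · -- all of the first copy
      obtain ⟨s, hs⟩ : ∃ s, s ∉ L := by
        by_contra hcon
        push Not at hcon
        exact hL (Set.eq_univ_of_forall hcon)
      have hK : ({i | ∃ hi : i ∈ U, (.inr ⟨i, hi⟩ : B ⊕ U) ∉ L} : Set B).Nonempty := by
        rcases s with i | i
        · exact absurd (h2 i) hs
        · exact ⟨i.1, i.2, hs⟩
      obtain ⟨i, ⟨hi, hiL⟩, j, -, hj, hij⟩ := hI _ (Set.subset_univ _) hK (fun e => by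
        have h3 : c ∈ ({i | ∃ hi : i ∈ U, (.inr ⟨i, hi⟩ : B ⊕ U) ∉ L} : Set B) := by
          rw [e]
          trivial
        exact h.right h3.1)
      by_cases hjU : j ∈ U
      · have hjL : (.inr ⟨j, hjU⟩ : B ⊕ U) ∈ L := by
          by_contra h3
          exact hj ⟨hjU, h3⟩
        refine ⟨_, hjL, _, trivial, hiL, ?_⟩
        rw [mu_rr, M.symmetric]
        exact hij
      · have h3 : i = b ∧ j = c := by
          by_contra h4
          exact hij (h.two i hi j hjU h4)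
        obtain ⟨rfl, rfl⟩ := h3
        refine ⟨_, h2 j, _, trivial, hiL, ?_⟩
        rw [mu_cb']
        decide
    · push Not at h2
      obtain ⟨i0, hi0⟩ := h2
      obtain ⟨i, hi, j, -, hj, hij⟩ := hI {i | (.inl i : B ⊕ U) ∈ L} (Set.subset_univ _) h1 (fun e => by
        have h3 : i0 ∈ ({i | (.inl i : B ⊕ U) ∈ L} : Set B) := by
          rw [e]
          trivial
        exact hi0 h3)
      exact ⟨_, hi, _, trivial, hj, mxf_ll h hij⟩
  · push Not at h1
    obtain ⟨s, hs⟩ := hne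
    have hK : ({i | ∃ hi : i ∈ U, (.inr ⟨i, hi⟩ : B ⊕ U) ∈ L} : Set B).Nonempty := by
      rcases s with i | i
      · exact absurd hs (h1 i)
      · exact ⟨i.1, i.2, hs⟩
    obtain ⟨i, ⟨hi, hiL⟩, j, -, hj, hij⟩ := hI _ (Set.subset_univ _) hK (fun e => by
      have h3 : c ∈ ({i | ∃ hi : i ∈ U, (.inr ⟨i, hi⟩ : B ⊕ U) ∈ L} : Set B) := by
        rw [e]
        trivial
      exact h.right h3.1)
    by_cases hjU : j ∈ U
    · have hjL : (.inr ⟨j, hjU⟩ : B ⊕ U) ∉ L := fun h3 => hj ⟨hjU, h3⟩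
      refine ⟨_, hiL, _, trivial, hjL, ?_⟩
      rw [mu_rr]
      exact hij
    · have h3 : i = b ∧ j = c := by
        by_contra h4
        exact hij (h.two i hi j hjU h4)
      obtain ⟨rfl, rfl⟩ := h3
      refine ⟨_, hiL, _, trivial, h1 j, ?_⟩
      rw [mu_bc']
      decide

theorem forest_mu (h : Brg M b c U) (hM : ∀ i j, M i j ≠ 0) (hfo : Forest M) : Forest (Mu h) := by
  refine forest_of_brg fun s t hst => ?_
  rcases s with i | i <;> rcases t with j | j
  · by_cases h1 : i = b ∧ j = c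
    · obtain ⟨rfl, rfl⟩ := h1
      exact ⟨_, mxf_bc h⟩
    · by_cases h2 : i = c ∧ j = b
      · obtain ⟨rfl, rfl⟩ := h2
        exact ⟨_, (mxf_bc h).symm⟩
      · rw [mu_ll h h1 h2] at hst
        obtain ⟨T, hT⟩ := exists_brg hM hfo hst
        by_cases hi : i ∈ U
        · have hj : j ∈ U := by
            by_contra hj
            have := h.two i hi j hj h1
            omega
          by_cases hb : b ∈ T
          · exact ⟨_, (mxf_in h hT.symm hj hi (fun h3 => h3 hb)).symm⟩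
          · exact ⟨_, mxf_in h hT hi hj hb⟩
        · have hj : j ∉ U := by
            intro hj
            have h3 := h.two j hj i hi (fun e => h2 ⟨e.2, e.1⟩)
            rw [M.symmetric] at h3
            omega
          exact ⟨_, mxf_out h hT hi hj⟩
  · by_cases h1 : i = c ∧ j.1 = b
    · obtain ⟨j, hj⟩ := j
      obtain ⟨rfl, rfl⟩ := h1
      exact ⟨_, (mxf_bc' h).symm⟩
    · rw [mu_lr h h1] at hst
      omega
  · by_cases h1 : i.1 = b ∧ j = c
    · obtain ⟨i, hi⟩ := i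
      obtain ⟨rfl, rfl⟩ := h1
      exact ⟨_, mxf_bc' h⟩
    · rw [mu_rl h h1] at hst
      omega
  · rw [mu_rr] at hst
    obtain ⟨T, hT⟩ := exists_brg hM hfo hst
    by_cases hb : b ∈ T
    · exact ⟨_, (mxf_inr h (i := j) (j := i) hT.symm (fun h3 => h3 hb)).symm⟩
    · exact ⟨_, mxf_inr h hT hb⟩

end Pool.Agent.H54.AP
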