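import Pool.Agent.H54.AP.Mxs

/-!
# [H54 AP MXP] The unfolded diagram is positive semidefinite (60 min)

`psd_iff` for `B ⊕ U` (`Fintype U` by `Fintype.ofFinite`). Let `z : B ⊕ U → ℝ`. For functions on `B`: `z₁ i = z (inl i)` if `i ∉ U`, otherwise `0`; `a i = z (inl i)` if `i ∈ U`, otherwise `0`; `a' i = z (inr i)` if `i ∈ U`, otherwise `0`;
`ga = z (inl c)`, `al = z (inl b)`, `be = z (inr b)`.
(1) `qf (Mu h) z = qf M z₁ + qf M a + qf M a' - ga * (al + be)`: `Fintype.sum_sum_type`; the part `inl, inl` is `qf M (z₁ + a)` with the label of `b c` changed from `4` to `3`: `qf M (z₁ + a) = qf M z₁ + 2 bf M z₁ a + qf M a`,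
`bf M z₁ a = ga * al * cm c b` (the only label `≠ 2` between `U` and its complement is that of `b c`: `h.two`, `cm_two`); for the unfolded diagram `- (1/2)` instead of `cm c b`. The part `inr, inr` is `qf M a'` (`mu_rr`), the two mixed parts are `- ga * be / 2` each.
It may be convenient to prove: for functions `u v : B → ℝ` with `u = 0` on `U` and `v = 0` off `U`: `bf M u v = u c * v b * cm M c b`.
(2) `s = (1/2) (a + a')`, `d = (1/2) (a - a')`: `2 qf M s + 2 qf M d = qf M a + qf M a'` (bilinear). `y = z₁ + √2 s`: `qf M y = qf M z₁ + 2 √2 bf M z₁ s + 2 qf M s`, `bf M z₁ s = ga * (al + be) / 2 * (- √2 / 2)` (`cm_four`), so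
`qf M y = qf M z₁ - ga * (al + be) + 2 qf M s`.
(3) `qf (Mu h) z = qf M y + 2 qf M d ≥ 0`.
-/

set_option autoImplicit false

namespace Pool.Agent.H54.AP

open CoxeterSystem Pool.H8.CDW Pool.Agent.H52.PAG Pool.Agent.H75.INF Pool.Agent.H54.TF Pool.Agent.H54.AF Pool.Agent.H54.BS
  Pool.Agent.H54.CT Pool.Agent.H34.TG Pool.Agent.H54.LK Pool.Agent.H2.UF

variable {B : Type} {M : CoxeterMatrix B} {b c : B} {U : Set B}

/-- the form between functions outside `U` and functions on `U` -/
private theorem mxp_cross [Fintype B] (h : Brg M b c U) {u v : B → ℝ} (hu : ∀ i ∈ U, u i = 0) (hv : ∀ i, i ∉ U → v i = 0) :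
    bf M u v = u c * v b * cm M c b := by
  have h2 : ∀ i j, ¬ (i = c ∧ j = b) → u i * v j * cm M i j = 0 := fun i j hij => by
    by_cases hi : i ∈ U
    · rw [hu i hi, zero_mul, zero_mul]
    · by_cases hj : j ∈ U
      · have h3 := h.two j hj i hi (fun e => hij ⟨e.2, e.1⟩)
        rw [cm_symm, cm_two h3, mul_zero]
      · rw [hv j hj, mul_zero, zero_mul]
  unfold bf
  rw [Finset.sum_eq_single c, Finset.sum_eq_single b]
  · intro j _ hj
    exact h2 c j (fun e => hj e.2)
  · intro hb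
    exact absurd (Finset.mem_univ b) hb
  · intro i _ hi
    exact Finset.sum_eq_zero fun j _ => h2 i j (fun e => hi e.1)
  · intro hc
    exact absurd (Finset.mem_univ c) hc

open Classical in
private theorem mxp_ite [Fintype B] (x y : B → ℝ) (b c : B) (δ : ℝ) :
    ∑ i, ∑ j, x i * y j * (if i = b ∧ j = c then δ else 0) = x b * y c * δ := by
  rw [Finset.sum_eq_single b, Finset.sum_eq_single c]
  · rw [if_pos ⟨rfl, rfl⟩]
  · intro j _ hj
    rw [if_neg (fun e => hj e.2), mul_zero]
  · intro h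
    exact absurd (Finset.mem_univ c) h
  · intro i _ hi
    refine Finset.sum_eq_zero fun j _ => ?_
    rw [if_neg (fun e => hi e.1), mul_zero]
  · intro h
    exact absurd (Finset.mem_univ b) h

open Classical in
/-- the first part of the form -/
private theorem mxp_ll [Fintype B] (h : Brg M b c U) (h4 : M b c = 4) (x : B → ℝ) :
    ∑ i, ∑ j, x i * x j * cm (Mu h) (.inl i) (.inl j) = qf M x + 2 * (x b * x c) * (√2 / 2 - 1 / 2) := by
  have h4' : M c b = 4 := by
    rw [M.symmetric]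
    exact h4
  have hbc := brg_ne h
  have e : ∀ i j, x i * x j * cm (Mu h) (.inl i) (.inl j) = x i * x j * cm M i j +
      (x i * x j * (if i = b ∧ j = c then (√2 / 2 - 1 / 2) else 0) +
        x i * x j * (if i = c ∧ j = b then (√2 / 2 - 1 / 2) else 0)) := by
    intro i j
    by_cases h1 : i = b ∧ j = c
    · have h2 : ¬ (i = c ∧ j = b) := fun e => hbc (h1.1.symm.trans e.1)
      rw [if_pos h1, if_neg h2]
      obtain ⟨rfl, rfl⟩ := h1
      rw [cm_three (mu_bc h), cm_four h4]
      ring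
    · by_cases h2 : i = c ∧ j = b
      · rw [if_neg h1, if_pos h2]
        obtain ⟨rfl, rfl⟩ := h2
        rw [cm_three (mu_cb h), cm_four h4']
        ring
      · rw [if_neg h1, if_neg h2]
        have h3 : cm (Mu h) (.inl i) (.inl j) = cm M i j := by
          unfold cm
          rw [mu_ll h h1 h2]
        rw [h3]
        ring
  simp only [e, Finset.sum_add_distrib]
  rw [mxp_ite, mxp_ite]
  unfold qf bf
  ring

/-- the mixed part of the form -/
private theorem mxp_lr [Fintype B] [Fintype U] (h : Brg M b c U) (x : B → ℝ) (y : U → ℝ) :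
    ∑ i, ∑ j, x i * y j * cm (Mu h) (.inl i) (.inr j) = x c * y ⟨b, h.left⟩ * (-(1 / 2)) := by
  rw [Finset.sum_eq_single c, Finset.sum_eq_single (⟨b, h.left⟩ : U)]
  · rw [cm_three (mu_cb' h)]
  · intro j _ hj
    rw [cm_two (mu_lr h fun e => hj (Subtype.ext e.2)), mul_zero]
  · intro hb
    exact absurd (Finset.mem_univ _) hb
  · intro i _ hi
    refine Finset.sum_eq_zero fun j _ => ?_
    rw [cm_two (mu_lr h fun e => hi e.1), mul_zero]
  · intro hc
    exact absurd (Finset.mem_univ c) hc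

open Classical in
private theorem mxp_sub [Fintype B] [Fintype U] (y : U → ℝ) (g : B → ℝ) :
    ∑ i, (if h : i ∈ U then y ⟨i, h⟩ else 0) * g i = ∑ u : U, y u * g u.1 := by
  have h1 : ∑ i ∈ Finset.univ.filter (· ∈ U), (if h : i ∈ U then y ⟨i, h⟩ else 0) * g i =
      ∑ i, (if h : i ∈ U then y ⟨i, h⟩ else 0) * g i := by
    refine Finset.sum_subset (Finset.subset_univ _) fun i _ hi => ?_
    have h2 : i ∉ U := fun h3 => hi (Finset.mem_filter.2 ⟨Finset.mem_univ _, h3⟩)
    rw [dif_neg h2, zero_mul]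
  rw [← h1, Finset.sum_subtype (Finset.univ.filter (· ∈ U)) (p := fun i => i ∈ U) (fun i => by simp)]
  refine Finset.sum_congr rfl fun u _ => ?_
  rw [dif_pos u.2]

open Classical in
/-- the last part of the form -/
private theorem mxp_rr [Fintype B] [Fintype U] (h : Brg M b c U) (y : U → ℝ) :
    ∑ i, ∑ j, y i * y j * cm (Mu h) (.inr i) (.inr j) = qf M (fun i => if h : i ∈ U then y ⟨i, h⟩ else 0) := by
  have e : ∀ i j : U, cm (Mu h) (.inr i) (.inr j) = cm M i.1 j.1 := fun i j => by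
    unfold cm
    rw [mu_rr]
  unfold qf bf
  have h1 : ∀ i : B, ∑ j, (if h : i ∈ U then y ⟨i, h⟩ else 0) * (if h : j ∈ U then y ⟨j, h⟩ else 0) * cm M i j =
      (if h : i ∈ U then y ⟨i, h⟩ else 0) * ∑ j : U, y j * cm M i j.1 := fun i => by
    rw [← mxp_sub y (fun j => cm M i j), Finset.mul_sum]
    refine Finset.sum_congr rfl fun j _ => ?_
    ring
  simp only [h1]
  rw [mxp_sub y (fun i => ∑ j : U, y j * cm M i j.1)]
  refine Finset.sum_congr rfl fun i _ => ?_
  rw [Finset.mul_sum]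
  refine Finset.sum_congr rfl fun j _ => ?_
  rw [e]
  ring

theorem psd_mu [Finite B] (h : Brg M b c U) (h4 : M b c = 4) (hp : Psd M) : Psd (Mu h) := by
  classical
  have := Fintype.ofFinite B
  have := Fintype.ofFinite U
  rw [psd_iff]
  intro z
  have h4' : M c b = 4 := by
    rw [M.symmetric]
    exact h4
  have hp' := psd_iff.1 hp
  obtain ⟨z1, hz1⟩ : ∃ z1 : B → ℝ, z1 = fun i => if i ∈ U then 0 else z (.inl i) := ⟨_, rfl⟩
  obtain ⟨a, ha⟩ : ∃ a : B → ℝ, a = fun i => if i ∈ U then z (.inl i) else 0 := ⟨_, rfl⟩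
  obtain ⟨a', ha'⟩ : ∃ a' : B → ℝ, a' = fun i => if h : i ∈ U then z (.inr ⟨i, h⟩) else 0 := ⟨_, rfl⟩
  have hsum : (fun i => z (.inl i)) = z1 + a := by
    funext i
    rw [Pi.add_apply, hz1, ha]
    by_cases hi : i ∈ U
    · simp [hi]
    · simp [hi]
  have z1c : z1 c = z (.inl c) := by
    rw [hz1]
    exact if_neg h.right
  have ab : a b = z (.inl b) := by
    rw [ha]
    exact if_pos h.left
  have ab' : a' b = z (.inr ⟨b, h.left⟩) := by
    rw [ha']
    exact dif_pos h.left
  have hz1U : ∀ i ∈ U, z1 i = 0 := fun i hi => by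
    rw [hz1]
    exact if_pos hi
  have haU : ∀ i, i ∉ U → a i = 0 := fun i hi => by
    rw [ha]
    exact if_neg hi
  have haU' : ∀ i, i ∉ U → a' i = 0 := fun i hi => by
    rw [ha']
    exact dif_neg hi
  have c1 := mxp_cross h hz1U haU
  rw [cm_four h4', z1c, ab] at c1
  have c2 := mxp_cross h hz1U haU'
  rw [cm_four h4', z1c, ab'] at c2
  have e1 : qf (Mu h) z = qf M z1 + qf M a + qf M a' - z (.inl c) * (z (.inl b) + z (.inr ⟨b, h.left⟩)) := by
    have s1 : qf (Mu h) z = (∑ i, ∑ j, z (.inl i) * z (.inl j) * cm (Mu h) (.inl i) (.inl j)) +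
        2 * (∑ i, ∑ j, z (.inl i) * z (.inr j) * cm (Mu h) (.inl i) (.inr j)) +
        ∑ i, ∑ j, z (.inr i) * z (.inr j) * cm (Mu h) (.inr i) (.inr j) := by
      unfold qf bf
      simp only [Fintype.sum_sum_type, Finset.sum_add_distrib]
      have s2 : ∑ i : U, ∑ j : B, z (.inr i) * z (.inl j) * cm (Mu h) (.inr i) (.inl j) =
          ∑ i : B, ∑ j : U, z (.inl i) * z (.inr j) * cm (Mu h) (.inl i) (.inr j) := by
        rw [Finset.sum_comm]
        refine Finset.sum_congr rfl fun i _ => Finset.sum_congr rfl fun j _ => ?_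
        rw [cm_symm]
        ring
      rw [s2]
      ring
    rw [s1, mxp_ll h h4 (fun i => z (.inl i)), mxp_lr h (fun i => z (.inl i)) (fun j => z (.inr j)),
      mxp_rr h (fun j => z (.inr j)), hsum, qf_add, c1, ← ha']
    ring
  have hs2 : √2 * √2 = 2 := Real.mul_self_sqrt (by norm_num)
  have p1 := hp' (z1 + (√2 / 2) • (a + a'))
  have p2 := hp' (a + (-1 : ℝ) • a')
  rw [qf_add, bf_smul_right, qf_smul, bf_add_right, qf_add, c1, c2] at p1
  rw [qf_add, bf_smul_right, qf_smul] at p2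
  rw [e1]
  have q1 : (√2 / 2) ^ 2 = 1 / 2 := by
    rw [div_pow, sq, hs2]
    norm_num
  rw [q1] at p1
  have q2 : 2 * (√2 / 2 * (z (.inl c) * z (.inl b) * (-(√2 / 2)) + z (.inl c) * z (.inr ⟨b, h.left⟩) * (-(√2 / 2)))) =
      - (z (.inl c) * (z (.inl b) + z (.inr ⟨b, h.left⟩))) := by
    linear_combination (-1 / 2) * (z (.inl c) * (z (.inl b) + z (.inr ⟨b, h.left⟩))) * hs2
  rw [q2] at p1
  linarith

end Pool.Agent.H54.AP
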