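import Pool.Agent.H54.AP.Qf
import Pool.Agent.H54.LK.Red

/-!
# [H54 AP NV] Null vectors of an irreducible positive semidefinite cosine matrix (30 min)

Let `y i = |x i|`. `qf M y ≤ qf M x ≤ 0` term by term: for `i = j` equal (`cm_self`), for `i ≠ j` `cm M i j ≤ 0` (`cm_nonpos`) and `x_i x_j ≤ |x_i| |x_j|`. So `qf M y = 0` (`psd_iff`). For every `i` and real `t`:
`0 ≤ qf M (y + t • Pi.single i 1) = 2 t (e_i, y) + t ^ 2` (`qf_add`, `qf_smul`, `bf_single`, `qf (single i 1) = cm i i = 1`), `t = - (e_i, y)`: `(e_i, y) = 0`, that is the second claim. First claim: `L = {i | x i = 0}`; if it is not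
empty, it is `≠ univ` (`x ≠ 0`), so there are `i ∈ L`, `j ∉ L` with `M i j ≠ 2` (`hI`), `i ≠ j`, so `3 ≤ M i j`, and in `∑ k, cm M i k * y k = 0` the term `k = i` is `0`, all terms are `≤ 0`, the term `k = j` is `< 0` (`cm_neg`): contradiction.
-/

set_option autoImplicit false

namespace Pool.Agent.H54.AP

open CoxeterSystem Pool.H8.CDW Pool.Agent.H52.PAG Pool.Agent.H75.INF Pool.Agent.H54.TF Pool.Agent.H54.AF Pool.Agent.H54.BS
  Pool.Agent.H54.CT Pool.Agent.H34.TG Pool.Agent.H54.LK Pool.Agent.H2.UF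

variable {B : Type} {M : CoxeterMatrix B}

theorem null_vec [Fintype B] (hM : ∀ i j, M i j ≠ 0) (hI : Irr M Set.univ) (hp : Psd M) {x : B → ℝ} (hx : x ≠ 0)
    (h : qf M x ≤ 0) : (∀ i, 0 < |x i|) ∧ ∀ i, ∑ j, cm M i j * |x j| = 0 := by
  classical
  obtain ⟨y, hy⟩ : ∃ y : B → ℝ, ∀ i, y i = |x i| := ⟨fun i => |x i|, fun _ => rfl⟩
  have hle : qf M y ≤ qf M x := by
    unfold qf bf
    refine Finset.sum_le_sum fun i _ => Finset.sum_le_sum fun j _ => ?_
    rw [hy, hy]
    by_cases hij : i = j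
    · rw [← hij, abs_mul_abs_self]
    · have h1 := cm_nonpos hij (hM i j)
      have h2 : x i * x j ≤ |x i| * |x j| := by
        rw [← abs_mul]
        exact le_abs_self _
      nlinarith
  have hy0 : qf M y = 0 := le_antisymm (hle.trans h) (psd_iff.1 hp y)
  have hs : ∀ i, ∑ j, cm M i j * |x j| = 0 := by
    intro i
    have e1 : bf M (Pi.single i 1) y = ∑ j, cm M i j * |x j| := by
      rw [bf_single]
      exact Finset.sum_congr rfl fun j _ => by rw [hy]
    rw [← e1]
    have e2 : qf M (Pi.single i 1) = 1 := by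
      unfold qf
      rw [bf_single, Finset.sum_eq_single i]
      · rw [Pi.single_eq_same, mul_one, cm_self]
      · intro k _ hk
        rw [Pi.single_eq_of_ne hk, mul_zero]
      · intro h
        exact absurd (Finset.mem_univ i) h
    have e3 := psd_iff.1 hp (y + (-bf M (Pi.single i 1) y) • Pi.single i 1)
    rw [qf_add, qf_smul, bf_smul_right, bf_symm y, e2, hy0] at e3
    nlinarith [sq_nonneg (bf M (Pi.single i 1) y)]
  refine ⟨?_, hs⟩
  by_contra hc
  push Not at hc
  obtain ⟨i0, hi0⟩ := hc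
  have hL : ({i | x i = 0} : Set B).Nonempty := ⟨i0, abs_nonpos_iff.1 hi0⟩
  have hL' : ({i | x i = 0} : Set B) ≠ Set.univ := by
    intro h1
    apply hx
    funext i
    have : i ∈ ({i | x i = 0} : Set B) := by
      rw [h1]
      trivial
    exact this
  obtain ⟨i, hi, j, -, hj, hij⟩ := hI _ (Set.subset_univ _) hL hL'
  have hne : i ≠ j := by
    rintro rfl
    exact hj hi
  have h3 : 3 ≤ M i j := by
    have h1 := M.off_diagonal i j hne
    have h2 := hM i j
    omega
  have hxi : x i = 0 := hi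
  have hxj : x j ≠ 0 := hj
  have h4 : ∀ k ∈ Finset.univ, cm M i k * |x k| ≤ 0 := by
    intro k _
    by_cases hk : i = k
    · rw [← hk, hxi, abs_zero, mul_zero]
    · exact mul_nonpos_of_nonpos_of_nonneg (cm_nonpos hk (hM i k)) (abs_nonneg _)
  have h5 := (Finset.sum_eq_zero_iff_of_nonpos h4).1 (hs i) j (Finset.mem_univ j)
  have h6 := mul_neg_of_neg_of_pos (cm_neg h3) (abs_pos.2 hxj)
  linarith

end Pool.Agent.H54.AP
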