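import Pool.Agent.H54.AP.Pd
import Pool.Agent.H54.AP.Nv
import Pool.Agent.H54.CT.Fm

/-!
# [H54 AP SUB] Proper subsets of an irreducible positive semidefinite diagram are of finite type (30 min)

`fin_of_pd` for `resM M K` (`Fintype K` by `Fintype.ofFinite`). For `x : K → ℝ`, `x ≠ 0`, let `y : B → ℝ` be its extension by `0`. `qf (resM M K) x = qf M y` (`resM M K i j = M i j` by `rfl`; sums over the subtype, for instance
`Finset.sum_subtype` or `Fintype.sum_subtype_add_sum_subtype`; terms outside of `K` vanish). `0 ≤ qf M y` and if it is `0` then `null_vec` gives `0 < |y i|` for all `i`, a contradiction for `i ∉ K`.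
-/

set_option autoImplicit false

namespace Pool.Agent.H54.AP

open CoxeterSystem Pool.H8.CDW Pool.Agent.H52.PAG Pool.Agent.H75.INF Pool.Agent.H54.TF Pool.Agent.H54.AF Pool.Agent.H54.BS
  Pool.Agent.H54.CT Pool.Agent.H34.TG Pool.Agent.H54.LK Pool.Agent.H2.UF

variable {B : Type} {M : CoxeterMatrix B}

theorem fin_proper [Fintype B] (hM : ∀ i j, M i j ≠ 0) (hI : Irr M Set.univ) (hp : Psd M) {K : Set B} (hK : K ≠ Set.univ) :
    Finite (resM M K).Group := by
  classical
  have : Fintype K := Fintype.ofFinite K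
  refine fin_of_pd (fun i j => hM i j) fun x hx => ?_
  obtain ⟨y, hy, hy'⟩ : ∃ y : B → ℝ, (∀ i : K, y i = x i) ∧ ∀ i, i ∉ K → y i = 0 :=
    ⟨fun i => if h : i ∈ K then x ⟨i, h⟩ else 0, fun i => dif_pos i.2, fun i hi => dif_neg hi⟩
  have h1 : ∀ f : B → ℝ, (∀ i, i ∉ K → f i = 0) → ∑ i, f i = ∑ i : K, f i := by
    intro f hf
    rw [← Finset.sum_subtype (Finset.univ.filter (· ∈ K)) (fun i => by simp) f]
    refine (Finset.sum_subset (Finset.filter_subset _ _) fun i _ hi => hf i fun h => hi ?_).symm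
    exact Finset.mem_filter.2 ⟨Finset.mem_univ i, h⟩
  have e : qf (resM M K) x = qf M y := by
    unfold qf bf
    rw [h1 (fun i => ∑ j, y i * y j * cm M i j) (fun i hi => by
      refine Finset.sum_eq_zero fun j _ => ?_
      rw [hy' i hi, zero_mul, zero_mul])]
    refine Finset.sum_congr rfl fun i _ => ?_
    rw [h1 (fun j => y i * y j * cm M i j) (fun j hj => by rw [hy' j hj, mul_zero, zero_mul])]
    refine Finset.sum_congr rfl fun j _ => ?_
    rw [hy, hy]
    rfl
  rw [e]
  refine lt_of_le_of_ne (psd_iff.1 hp y) fun h0 => ?_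
  have hy0 : y ≠ 0 := by
    intro h1
    apply hx
    funext i
    rw [← hy i, h1]
    rfl
  obtain ⟨i, hi⟩ := (Set.ne_univ_iff_exists_notMem K).1 hK
  have h2 := (null_vec hM hI hp hy0 h0.symm.le).1 i
  rw [hy' i hi, abs_zero] at h2
  exact lt_irrefl _ h2

end Pool.Agent.H54.AP
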