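import Pool.Agent.H54.AP.Stp
import Pool.Agent.H54.AP.MxP
import Pool.Agent.H54.AP.MxF
import Pool.Agent.H54.AP.Ext
import Pool.Agent.H54.AP.Sub
import Pool.Agent.H54.AP.Cyc
import Pool.Agent.H54.AP.Fiv
import Pool.Agent.H54.AF.Asm

/-!
# [H54 AP LAD] POLY for the irreducible positive semidefinite diagrams with spherical triples
-/

set_option autoImplicit false

namespace Pool.Agent.H54.AP

open CoxeterSystem Pool.H8.CDW Pool.Agent.H52.PAG Pool.Agent.H75.INF Pool.Agent.H54.TF Pool.Agent.H54.AF Pool.Agent.H54.BS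
  Pool.Agent.H54.CT Pool.Agent.H34.TG Pool.Agent.H54.LK Pool.Agent.H2.UF Pool.Agent.H52.VK

/-- forests with labels at most `4` -/
theorem polF_four (hL : ComLeaf) (hI : ComInner) (n : ℕ) : ∀ (B : Type) [Finite B] (M : CoxeterMatrix B), n4 M = n →
    (∀ i j, M i j ≠ 0 ∧ M i j ≤ 4) → Irr M Set.univ → Psd M → Forest M → PolF M Set.univ := by
  induction n using Nat.strong_induction_on with
  | _ n ih =>
    intro B _ M hn hM hIr hp hfo
    have : Fintype B := Fintype.ofFinite B
    have hM0 : ∀ i j, M i j ≠ 0 := fun i j => (hM i j).1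
    by_cases h4 : ∃ b c, M b c = 4
    · obtain ⟨b₀, c₀, h4⟩ := h4
      obtain ⟨b, c, U, h, h4, hU⟩ := exists_ext hM0 hfo h4
      have : Fintype U := Fintype.ofFinite U
      have hM' := lab_mu h hM
      have hI' := irr_mu h hIr
      have hp' := psd_mu h h4 hp
      refine polF_unf hM hfo h h4 (fun s t => (hM' s t).1)
        (fun K hK => fin_proper (fun s t => (hM' s t).1) hI' hp' hK)
        (ih _ (by rw [← hn]; exact n4_mu h h4 hU) _ _ rfl hM' hI' hp' (forest_mu h hM0 hfo))
    · push Not at h4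
      refine polF_min hL hI ?_ hfo fun k => fin_proper hM0 hIr hp fun e => ?_
      · intro i j hij
        have h1 := hM i j
        have h2 := M.off_diagonal i j hij
        have h3 := h4 i j
        omega
      · have h1 : k ∈ ({k}ᶜ : Set B) := by
          rw [e]
          trivial
        exact h1 rfl

/-- labels of irreducible sets with spherical triples -/
theorem lab_le_five {B : Type} [Finite B] {M : CoxeterMatrix B} (hM : ∀ i j, M i j ≠ 0) (hIr : Irr M Set.univ) (h3 : 3 ≤ Nat.card B)
    (ht : Tri3 M Set.univ) (i j : B) : M i j ≤ 5 := by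
  by_contra hcon
  have hij : i ≠ j := by
    rintro rfl
    rw [M.diagonal] at hcon
    omega
  have hne : ({i, j} : Set B) ≠ Set.univ := by
    intro e
    have h1 := Set.ncard_univ B
    rw [← e, Set.ncard_pair hij] at h1
    omega
  obtain ⟨a, ha, k, -, hk, hak⟩ := hIr {i, j} (Set.subset_univ _) ⟨i, Or.inl rfl⟩ hne
  have hki : k ≠ i := fun e => hk (Or.inl e)
  have hkj : k ≠ j := fun e => hk (Or.inr e)
  have ge2 : ∀ {x y : B}, x ≠ y → (2 : ℝ) ≤ M x y := by
    intro x y hxy
    have h1 := hM x y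
    have h2 := M.off_diagonal x y hxy
    exact_mod_cast (show 2 ≤ M x y by omega)
  have h6 : (6 : ℝ) ≤ M i j := by exact_mod_cast (show 6 ≤ M i j by omega)
  have k6 : (1 : ℝ) / M i j ≤ 1 / 6 := one_div_le_one_div_of_le (by norm_num) h6
  have k2 : ∀ {x y : B}, x ≠ y → (1 : ℝ) / M x y ≤ 1 / 2 := fun hxy => one_div_le_one_div_of_le (by norm_num) (ge2 hxy)
  have h4 := ht i trivial j trivial k trivial hij (Ne.symm hkj) (Ne.symm hki)
  have ge3 : ∀ {x y : B}, x ≠ y → M x y ≠ 2 → (1 : ℝ) / M x y ≤ 1 / 3 := by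
    intro x y hxy hne
    refine one_div_le_one_div_of_le (by norm_num) ?_
    have h1 := hM x y
    have h2 := M.off_diagonal x y hxy
    exact_mod_cast (show 3 ≤ M x y by omega)
  rcases ha with rfl | ha
  · have h5 := ge3 (Ne.symm hki) hak
    have h7 := k2 (Ne.symm hkj)
    linarith
  · rw [Set.mem_singleton_iff] at ha
    subst ha
    have h5 := ge3 (Ne.symm hkj) hak
    have h7 := k2 (Ne.symm hki)
    linarith

/-- POLY for the irreducible positive semidefinite diagrams with spherical triples -/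
theorem polF_psd (hL : ComLeaf) (hI : ComInner) (hG : SphG) (hb : B1s) (hfo : Fors) (hc : PCir) {B : Type} [Finite B] {M : CoxeterMatrix B}
    (hM : ∀ i j, M i j ≠ 0) (hIr : Irr M Set.univ) (h3 : 3 ≤ Nat.card B) (ht : Tri3 M Set.univ) (hp : Psd M) :
    PolF M Set.univ := by
  have : Fintype B := Fintype.ofFinite B
  by_cases hpd : ∀ x : B → ℝ, x ≠ 0 → 0 < qf M x
  · exact polF_sph hG hb hfo (fin_of_pd hM hpd) ht
  push Not at hpd
  obtain ⟨x, hx, hx0⟩ := hpd
  obtain ⟨hy, hy0⟩ := null_vec hM hIr hp hx hx0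
  by_cases hf : Forest M
  · refine polF_four hL hI _ B M rfl (fun i j => ⟨hM i j, ?_⟩) hIr hp hf
    have h1 := lab_le_five hM hIr h3 ht i j
    have h2 := no_five hM hy hy0 i j
    omega
  · obtain ⟨n, hn, e, he⟩ := cir_of_cycle hM hIr hp hf
    refine hc B M ⟨n, ?_, e, he⟩
    by_contra hcon
    obtain rfl : n = 3 := by omega
    have h0 : ∀ a b : ZMod 3, a ≠ b → M (e.symm a) (e.symm b) = 3 := by
      intro a b hab
      rw [he _ _ fun h => hab (e.symm.injective h), e.apply_symm_apply, e.apply_symm_apply, if_pos]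
      revert a b
      decide
    have h1 := ht (e.symm 0) trivial (e.symm 1) trivial (e.symm 2) trivial
      (fun h => absurd (e.symm.injective h) (by decide)) (fun h => absurd (e.symm.injective h) (by decide))
      (fun h => absurd (e.symm.injective h) (by decide))
    rw [h0 0 1 (by decide), h0 1 2 (by decide), h0 0 2 (by decide)] at h1
    norm_num at h1

end Pool.Agent.H54.AP
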