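import Pool.Agent.H54.AP.Mxs
import Pool.Agent.H54.CT.Iv

/-!
# [H54 AP MXI] The involution of the unfolded diagram (40 min)

`pi = Sum.elim id Subtype.val`, `sg (inl i) = inr i` if `i ∈ U`, `inl i` otherwise, `sg (inr i) = inl i`. `surj`, `inv`, `fib`, `sym`, `own` (`mu_lr`: `¬ (i = c ∧ i = b)`) by cases. `lab s t`, `pi s ≠ pi t`, by cases:
`inl i, inl j`: `{i, j} = {b, c}`: last case (`M b c = 4`, label `3` above, exactly one of them fixed). Otherwise: `i`, `j` both in `U`: second case, first alternative (`mu_lr`); both not in `U`: third case; one in `U`, the other not: first case (`h.two`).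
`inl i, inr j` (`j ∈ U`): `i ∈ U`: second case, second alternative; `i ∉ U`: `i = c`, `j = b`: last case; otherwise first case. `inr, inl`: the same. `inr, inr`: second case, first alternative.
-/

set_option autoImplicit false

namespace Pool.Agent.H54.AP

open CoxeterSystem Pool.H8.CDW Pool.Agent.H52.PAG Pool.Agent.H75.INF Pool.Agent.H54.TF Pool.Agent.H54.AF Pool.Agent.H54.BS
  Pool.Agent.H54.CT Pool.Agent.H34.TG Pool.Agent.H54.LK Pool.Agent.H2.UF

variable {B : Type} {M : CoxeterMatrix B} {b c : B} {U : Set B}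

open Classical in
private noncomputable def sgU (U : Set B) : B ⊕ U → B ⊕ U
  | .inl i => if h : i ∈ U then .inr ⟨i, h⟩ else .inl i
  | .inr i => .inl i.1

private theorem sg_in {i : B} (hi : i ∈ U) : sgU U (.inl i) = .inr ⟨i, hi⟩ := dif_pos hi

private theorem sg_out {i : B} (hi : i ∉ U) : sgU U (.inl i) = .inl i := dif_neg hi

private theorem sg_r (i : U) : sgU U (.inr i) = .inl i.1 := rfl

private theorem two' (h : Brg M b c U) {i j : B} (hi : i ∉ U) (hj : j ∈ U) (hij : ¬ (i = c ∧ j = b)) : M i j = 2 := by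
  rw [M.symmetric]
  exact h.two j hj i hi fun e => hij ⟨e.2, e.1⟩

theorem exists_ivU (h : Brg M b c U) (h4 : M b c = 4) : ∃ I : Iv M (Mu h), I.pi = Sum.elim id Subtype.val ∧
    I.sg (.inl b) = .inr ⟨b, h.left⟩ ∧ I.sg (.inl c) = .inl c := by
  classical
  have hbU := h.left
  have hcU := h.right
  have hnb : ∀ {i : B}, i ∉ U → i ≠ b := fun hi e => hi (by rw [e]; exact hbU)
  have hc4 : M c b = 4 := by
    rw [M.symmetric]
    exact h4
  refine ⟨{ pi := Sum.elim id Subtype.val
            sg := sgU U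
            surj := fun x => ⟨.inl x, rfl⟩
            inv := ?_
            fib := ?_
            sym := ?_
            own := ?_
            lab := ?_ }, rfl, sg_in hbU, sg_out hcU⟩
  · rintro (i | i)
    · by_cases hi : i ∈ U
      · rw [sg_in hi, sg_r]
      · rw [sg_out hi, sg_out hi]
    · rw [sg_r, sg_in i.2]
  · rintro (i | i) (j | j)
    · show i = j ↔ _
      by_cases hi : i ∈ U
      · rw [sg_in hi]
        constructor
        · rintro rfl
          exact Or.inl rfl
        · rintro (e | e)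
          · exact (Sum.inl_injective e).symm
          · exact absurd e Sum.inl_ne_inr
      · rw [sg_out hi]
        constructor
        · rintro rfl
          exact Or.inl rfl
        · rintro (e | e) <;> exact (Sum.inl_injective e).symm
    · show i = j.1 ↔ _
      by_cases hi : i ∈ U
      · rw [sg_in hi]
        constructor
        · intro e
          exact Or.inr (congrArg Sum.inr (Subtype.ext e.symm))
        · rintro (e | e)
          · exact absurd e Sum.inr_ne_inl
          · exact (congrArg Subtype.val (Sum.inr_injective e)).symm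
      · rw [sg_out hi]
        constructor
        · intro e
          exact absurd (e ▸ j.2) hi
        · rintro (e | e) <;> exact absurd e Sum.inr_ne_inl
    · show i.1 = j ↔ _
      rw [sg_r]
      constructor
      · rintro rfl
        exact Or.inr rfl
      · rintro (e | e)
        · exact absurd e Sum.inl_ne_inr
        · exact (Sum.inl_injective e).symm
    · show i.1 = j.1 ↔ _
      rw [sg_r]
      constructor
      · intro e
        exact Or.inl (congrArg Sum.inr (Subtype.ext e.symm))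
      · rintro (e | e)
        · exact (congrArg Subtype.val (Sum.inr_injective e)).symm
        · exact absurd e Sum.inr_ne_inl
  · rintro (i | i) (j | j)
    · by_cases hi : i ∈ U
      · by_cases hj : j ∈ U
        · rw [sg_in hi, sg_in hj, mu_rr, mu_ll h (fun e => hcU (e.2 ▸ hj)) (fun e => hcU (e.1 ▸ hi))]
        · rw [sg_in hi, sg_out hj]
          by_cases e : i = b ∧ j = c
          · obtain ⟨rfl, rfl⟩ := e
            exact (mu_bc' h).trans (mu_bc h).symm
          · rw [mu_rl h e, mu_ll h e (fun e => hcU (e.1 ▸ hi)), h.two i hi j hj e]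
      · by_cases hj : j ∈ U
        · rw [sg_out hi, sg_in hj]
          by_cases e : i = c ∧ j = b
          · obtain ⟨rfl, rfl⟩ := e
            exact (mu_cb' h).trans (mu_cb h).symm
          · rw [mu_lr h e, mu_ll h (fun e' => hnb hi e'.1) e, two' h hi hj e]
        · rw [sg_out hi, sg_out hj]
    · rw [sg_r]
      by_cases hi : i ∈ U
      · rw [sg_in hi, mu_rl h (fun e => hcU (e.2 ▸ j.2)), mu_lr h (fun e => hcU (e.1 ▸ hi))]
      · rw [sg_out hi]
        by_cases e : i = c ∧ j.1 = b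
        · obtain ⟨rfl, e2⟩ := e
          have hj : j = ⟨b, h.left⟩ := Subtype.ext e2
          rw [hj]
          exact (mu_cb h).trans (mu_cb' h).symm
        · rw [mu_ll h (fun e' => hnb hi e'.1) e, mu_lr h e, two' h hi j.2 e]
    · rw [sg_r]
      by_cases hj : j ∈ U
      · rw [sg_in hj, mu_lr h (fun e => hcU (e.1 ▸ i.2)), mu_rl h (fun e => hcU (e.2 ▸ hj))]
      · rw [sg_out hj]
        by_cases e : i.1 = b ∧ j = c
        · obtain ⟨e1, rfl⟩ := e
          have hi : i = ⟨b, h.left⟩ := Subtype.ext e1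
          rw [hi]
          exact (mu_bc h).trans (mu_bc' h).symm
        · rw [mu_ll h e (fun e' => hnb hj e'.2), mu_rl h e, h.two i.1 i.2 j hj e]
    · rw [sg_r, sg_r, mu_rr, mu_ll h (fun e => hcU (e.2 ▸ j.2)) (fun e => hcU (e.1 ▸ i.2))]
  · rintro (i | i) hne
    · by_cases hi : i ∈ U
      · rw [sg_in hi, mu_lr h (fun e => hcU (e.1 ▸ hi))]
      · exact absurd (sg_out hi) hne
    · rw [sg_r, mu_rl h (fun e => hcU (e.2 ▸ i.2))]
  · have hmove : ∀ {i : B} (hi : i ∈ U), sgU U (.inl i) ≠ .inl i := fun hi e => by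
      rw [sg_in hi] at e
      exact Sum.inr_ne_inl e
    have hmove' : ∀ i : U, sgU U (.inr i) ≠ .inr i := fun i e => Sum.inl_ne_inr e
    rintro (i | i) (j | j) hij
    · show (M i j = 2 ∧ _) ∨ (_ ∧ _ ∧ (M i j = _ ∧ _ ∨ _ ∧ M i j = _)) ∨ (_ ∧ _ ∧ M i j = _) ∨ (M i j = 4 ∧ _)
      by_cases hi : i ∈ U
      · by_cases hj : j ∈ U
        · refine Or.inr (Or.inl ⟨hmove hi, hmove hj, Or.inl ⟨?_, ?_⟩⟩)
          · rw [mu_ll h (fun e => hcU (e.2 ▸ hj)) (fun e => hcU (e.1 ▸ hi))]
          · rw [sg_in hj, mu_lr h (fun e => hcU (e.1 ▸ hi))]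
        · by_cases e : i = b ∧ j = c
          · obtain ⟨rfl, rfl⟩ := e
            exact Or.inr (Or.inr (Or.inr ⟨h4, mu_bc h, Or.inr ⟨hmove hi, sg_out hj⟩⟩))
          · have h2 := h.two i hi j hj e
            exact Or.inl ⟨h2, by rw [mu_ll h e (fun e => hcU (e.1 ▸ hi)), h2]⟩
      · by_cases hj : j ∈ U
        · by_cases e : i = c ∧ j = b
          · obtain ⟨rfl, rfl⟩ := e
            exact Or.inr (Or.inr (Or.inr ⟨hc4, mu_cb h, Or.inl ⟨sg_out hi, hmove hj⟩⟩))
          · have h2 := two' h hi hj e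
            exact Or.inl ⟨h2, by rw [mu_ll h (fun e' => hnb hi e'.1) e, h2]⟩
        · refine Or.inr (Or.inr (Or.inl ⟨sg_out hi, sg_out hj, ?_⟩))
          rw [mu_ll h (fun e' => hnb hi e'.1) (fun e' => hnb hj e'.2)]
    · show (M i j.1 = 2 ∧ _) ∨ (_ ∧ _ ∧ (M i j.1 = _ ∧ _ ∨ _ ∧ M i j.1 = _)) ∨ (_ ∧ _ ∧ M i j.1 = _) ∨ (M i j.1 = 4 ∧ _)
      by_cases hi : i ∈ U
      · refine Or.inr (Or.inl ⟨hmove hi, hmove' j, Or.inr ⟨?_, ?_⟩⟩)
        · rw [mu_lr h (fun e => hcU (e.1 ▸ hi))]
        · rw [sg_r, mu_ll h (fun e => hcU (e.2 ▸ j.2)) (fun e => hcU (e.1 ▸ hi))]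
      · by_cases e : i = c ∧ j.1 = b
        · obtain ⟨rfl, e2⟩ := e
          have hj : j = ⟨b, h.left⟩ := Subtype.ext e2
          rw [hj]
          exact Or.inr (Or.inr (Or.inr ⟨hc4, mu_cb' h, Or.inl ⟨sg_out hi, hmove' _⟩⟩))
        · have h2 := two' h hi j.2 e
          exact Or.inl ⟨h2, by rw [mu_lr h e]⟩
    · show (M i.1 j = 2 ∧ _) ∨ (_ ∧ _ ∧ (M i.1 j = _ ∧ _ ∨ _ ∧ M i.1 j = _)) ∨ (_ ∧ _ ∧ M i.1 j = _) ∨ (M i.1 j = 4 ∧ _)
      by_cases hj : j ∈ U
      · refine Or.inr (Or.inl ⟨hmove' i, hmove hj, Or.inr ⟨?_, ?_⟩⟩)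
        · rw [mu_rl h (fun e => hcU (e.2 ▸ hj))]
        · rw [sg_in hj, mu_rr]
      · by_cases e : i.1 = b ∧ j = c
        · obtain ⟨e1, rfl⟩ := e
          have hi : i = ⟨b, h.left⟩ := Subtype.ext e1
          rw [hi]
          exact Or.inr (Or.inr (Or.inr ⟨h4, mu_bc' h, Or.inr ⟨hmove' _, sg_out hj⟩⟩))
        · have h2 := h.two i.1 i.2 j hj e
          exact Or.inl ⟨h2, by rw [mu_rl h e]⟩
    · show (M i.1 j.1 = 2 ∧ _) ∨ (_ ∧ _ ∧ (M i.1 j.1 = _ ∧ _ ∨ _ ∧ M i.1 j.1 = _)) ∨ (_ ∧ _ ∧ M i.1 j.1 = _) ∨ (M i.1 j.1 = 4 ∧ _)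
      refine Or.inr (Or.inl ⟨hmove' i, hmove' j, Or.inl ⟨?_, ?_⟩⟩)
      · rw [mu_rr]
      · rw [sg_r, mu_rl h (fun e => hcU (e.2 ▸ j.2))]

end Pool.Agent.H54.AP
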