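import Pool.Agent.H54.AP.Qf
import Pool.Agent.H54.LK.Fst
import Pool.Agent.H2.UF.Mtx

/-!
# [H54 AP MXS] The unfolded diagram of an edge with label `4`
-/

set_option autoImplicit false

namespace Pool.Agent.H54.AP

open CoxeterSystem Pool.H8.CDW Pool.Agent.H52.PAG Pool.Agent.H75.INF Pool.Agent.H54.TF Pool.Agent.H54.AF Pool.Agent.H54.BS
  Pool.Agent.H54.CT Pool.Agent.H34.TG Pool.Agent.H54.LK Pool.Agent.H2.UF

variable {B : Type} {M : CoxeterMatrix B} {b c : B} {U : Set B}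

theorem brg_ne (h : Brg M b c U) : b ≠ c := by
  rintro rfl
  exact h.right h.left

/-- the diagram with two copies of the side `U` of `b`, both connected with `c` by edges with label `3` -/
noncomputable def Mu (h : Brg M b c U) : CoxeterMatrix (B ⊕ U) := Mx M (brg_ne h) U

theorem mu_ll (h : Brg M b c U) {i j : B} (hij : ¬ (i = b ∧ j = c)) (hji : ¬ (i = c ∧ j = b)) :
    Mu h (.inl i) (.inl j) = M i j := if_neg fun e => e.elim hij hji

theorem mu_bc (h : Brg M b c U) : Mu h (.inl b) (.inl c) = 3 := if_pos (Or.inl ⟨rfl, rfl⟩)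

theorem mu_cb (h : Brg M b c U) : Mu h (.inl c) (.inl b) = 3 := if_pos (Or.inr ⟨rfl, rfl⟩)

theorem mu_rr (h : Brg M b c U) (i j : U) : Mu h (.inr i) (.inr j) = M i.1 j.1 := by
  refine if_neg ?_
  rintro (⟨-, e⟩ | ⟨e, -⟩)
  · exact h.right (e ▸ j.2)
  · exact h.right (e ▸ i.2)

theorem mu_lr (h : Brg M b c U) {i : B} {j : U} (hij : ¬ (i = c ∧ j.1 = b)) : Mu h (.inl i) (.inr j) = 2 := if_neg hij

theorem mu_rl (h : Brg M b c U) {i : U} {j : B} (hij : ¬ (i.1 = b ∧ j = c)) : Mu h (.inr i) (.inl j) = 2 := if_neg hij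

theorem mu_cb' (h : Brg M b c U) : Mu h (.inl c) (.inr ⟨b, h.left⟩) = 3 := if_pos ⟨rfl, rfl⟩

theorem mu_bc' (h : Brg M b c U) : Mu h (.inr ⟨b, h.left⟩) (.inl c) = 3 := if_pos ⟨rfl, rfl⟩

/-- a graph whose edges have sides is a forest -/
theorem forest_of_brg (h : ∀ b c, 3 ≤ M b c → ∃ T, Brg M b c T) : Forest M := by
  intro b c hbc hp
  obtain ⟨T, hT⟩ := h b c hbc
  have key : ∀ y, Relation.ReflTransGen (fun x y => 3 ≤ M x y ∧ ¬ (x = b ∧ y = c) ∧ ¬ (x = c ∧ y = b)) b y → y ∈ T := by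
    intro y hy
    induction hy with
    | refl => exact hT.left
    | @tail x y _ h2 ih =>
      by_contra hyT
      have h3 := hT.two x ih y hyT h2.2.1
      have h4 := h2.1
      omega
  exact hT.right (key c hp)

end Pool.Agent.H54.AP
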