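import Pool.Agent.H54.AP.Qf
import Pool.Agent.H75.INF.Lia

/-!
# [H54 AP PD] A Coxeter group with a positive definite cosine matrix is finite (90 min)

Library: `rho cs`, `rho_simple`, `pos_root` (H75/INF/Lia: `0 ≤ rho cs w (single i 1) k` if `ℓ w < ℓ (w s_i)`), `c1_grefl_apply`, `c1_gform_single`, `c1_self` (H8/CDW/C1). `B` is finite, all labels are `≠ 0`, so
`gform M i (single j 1) = cm M i j`. Write `(x, y) = bf M x y` for `x y : B → ℝ` and `ρ w` for `rho M.toCoxeterSystem w`, read on `B → ℝ` (the coercion of `Finsupp`, or `Finsupp.linearEquivFunOnFinite`; it may be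
convenient to prove everything for `x : B →₀ ℝ` with `bf M (⇑x) (⇑y)`), `e_i` the basis.
(1) `gform M i x = (e_i, x)` (linear in `x`, true on the basis). `(ρ w x, ρ w y) = (x, y)`: `cs.simple_induction_left`, one reflection: `σ_i x = x - 2 (e_i, x) e_i`, `(e_i, e_i) = 1`.
(2) There is `p` with `(e_i, p) = 1` for all `i`: the linear map `y ↦ (i ↦ (e_i, y))` from `B → ℝ` to itself is injective (if all `(e_i, y) = 0` then `(y, y) = ∑ y_i (e_i, y) = 0`, so `y = 0`), so surjective
(`LinearMap.injective_iff_surjective`).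
(3) If `w ≠ 1` then `qf M (ρ w p - p) > 1`: let `i` be a right descent of `w⁻¹` (`exists_rightDescent_of_ne_one`). `ρ w⁻¹ e_i = - ρ (w⁻¹ s_i) e_i` has coordinates `≤ 0` (`pos_root`), and it is not `0` (apply `ρ w`), so
`(ρ w⁻¹ e_i, p) = ∑ coordinates * (e_k, p) = ∑ coordinates < 0`. So `(e_i, ρ w p) < 0`, `(e_i, p - ρ w p) > 1`. With `z = p - ρ w p`, `t = (e_i, z)`: `0 ≤ qf (z - t e_i) = qf z - t ^ 2`. So `qf z ≥ t ^ 2 > 1`.
(4) So `qf M (ρ u p - ρ v p) > 1` for `u ≠ v`.
(5) `qf` is continuous and positive on the unit sphere of `B → ℝ` (`isCompact_sphere`), so `ε ‖x‖ ^ 2 ≤ qf x` for some `ε > 0` (if `B` is empty everything is trivial); all `ρ w p` have `qf = qf p`, so they lie in a closed ball, which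
is compact, so totally bounded. `qf z < 1` for `‖z‖ < δ` (continuity at `0`). A finite cover by balls of radius `δ / 2` has at most one `ρ w p` in every ball: `w ↦` ball is injective, so `M.Group` is finite (`Finite.of_injective`).
-/

set_option autoImplicit false

namespace Pool.Agent.H54.AP

open CoxeterSystem Pool.H8.CDW Pool.Agent.H52.PAG Pool.Agent.H75.INF Pool.Agent.H54.TF Pool.Agent.H54.AF Pool.Agent.H54.BS
  Pool.Agent.H54.CT Pool.Agent.H34.TG Pool.Agent.H54.LK Pool.Agent.H2.UF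

variable {B : Type} {M : CoxeterMatrix B}

private theorem pd_gform (hM : ∀ i j, M i j ≠ 0) [Fintype B] (i : B) (x : B →₀ ℝ) :
    gform M i x = ∑ j, cm M i j * x j := by
  classical
  induction x using Finsupp.induction_linear with
  | zero => simp
  | add x y hx hy =>
    rw [map_add, hx, hy, ← Finset.sum_add_distrib]
    refine Finset.sum_congr rfl fun j _ => ?_
    rw [Finsupp.add_apply]
    ring
  | single j r =>
    have h1 : (Finsupp.single j r : B →₀ ℝ) = r • Finsupp.single j (1 : ℝ) := by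
      rw [Finsupp.smul_single, smul_eq_mul, mul_one]
    rw [Finset.sum_eq_single j]
    · rw [Finsupp.single_eq_same, h1, map_smul, c1_form M (hM i j), smul_eq_mul, cm]
      ring
    · intro k _ hk
      rw [Finsupp.single_eq_of_ne hk, mul_zero]
    · intro h
      exact absurd (Finset.mem_univ j) h

private theorem pd_bf [Fintype B] (x y : B → ℝ) : bf M x y = ∑ i, x i * ∑ j, cm M i j * y j := by
  unfold bf
  refine Finset.sum_congr rfl fun i _ => ?_
  rw [Finset.mul_sum]
  refine Finset.sum_congr rfl fun j _ => ?_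
  ring

/-- the basis vector -/
private noncomputable def ev (i : B) : B →₀ ℝ := Finsupp.single i 1

private theorem pd_ev (hM : ∀ i j, M i j ≠ 0) [Fintype B] (i : B) (x : B →₀ ℝ) :
    gform M i x = bf M ⇑(ev i) ⇑x := by
  classical
  have h1 : ∑ k, (ev i : B →₀ ℝ) k * ∑ j, cm M k j * x j =
      (ev i : B →₀ ℝ) i * ∑ j, cm M i j * x j := by
    refine Finset.sum_eq_single i (fun k _ hk => ?_) (fun h => absurd (Finset.mem_univ i) h)
    rw [ev, Finsupp.single_eq_of_ne hk, zero_mul]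
  rw [pd_gform hM, pd_bf, h1, ev, Finsupp.single_eq_same, one_mul]

private theorem pd_ee (hM : ∀ i j, M i j ≠ 0) [Fintype B] (i : B) : bf M ⇑(ev i) ⇑(ev i) = 1 := by
  rw [← pd_ev hM]
  exact c1_self M i

private theorem pd_refl (hM : ∀ i j, M i j ≠ 0) [Fintype B] (i : B) (x y : B →₀ ℝ) :
    bf M ⇑(grefl M i x) ⇑(grefl M i y) = bf M ⇑x ⇑y := by
  have hx : ⇑(grefl M i x) = ⇑x + (-(2 * gform M i x)) • ⇑(ev i) := by
    rw [c1_grefl_apply, Finsupp.coe_sub, Finsupp.coe_smul, ev]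
    module
  have hy : ⇑(grefl M i y) = ⇑y + (-(2 * gform M i y)) • ⇑(ev i) := by
    rw [c1_grefl_apply, Finsupp.coe_sub, Finsupp.coe_smul, ev]
    module
  rw [hx, hy]
  simp only [bf_add_left, bf_add_right, bf_smul_left, bf_smul_right]
  rw [pd_ee hM, pd_ev hM, pd_ev hM, bf_symm ⇑x ⇑(ev i)]
  ring

private theorem pd_inv (hM : ∀ i j, M i j ≠ 0) [Fintype B] (w : M.Group) (x y : B →₀ ℝ) :
    bf M ⇑(rho M.toCoxeterSystem w x) ⇑(rho M.toCoxeterSystem w y) = bf M ⇑x ⇑y := by
  revert x y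
  refine M.toCoxeterSystem.simple_induction_left (p := fun w => ∀ x y : B →₀ ℝ,
    bf M ⇑(rho M.toCoxeterSystem w x) ⇑(rho M.toCoxeterSystem w y) = bf M ⇑x ⇑y) w ?_ ?_
  · intro x y
    rw [map_one]
    rfl
  · intro w i ih x y
    rw [map_mul, Module.End.mul_apply, Module.End.mul_apply, rho_simple, pd_refl hM, ih]

private theorem pd_point [Fintype B] (h : ∀ x : B → ℝ, x ≠ 0 → 0 < qf M x) :
    ∃ p : B →₀ ℝ, ∀ i, ∑ j, cm M i j * p j = 1 := by
  let L : (B → ℝ) →ₗ[ℝ] (B → ℝ) :=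
    { toFun := fun y i => ∑ j, cm M i j * y j
      map_add' := by
        intro x y
        funext i
        rw [Pi.add_apply, ← Finset.sum_add_distrib]
        refine Finset.sum_congr rfl fun j _ => ?_
        rw [Pi.add_apply]
        ring
      map_smul' := by
        intro r x
        funext i
        rw [RingHom.id_apply, Pi.smul_apply, smul_eq_mul, Finset.mul_sum]
        refine Finset.sum_congr rfl fun j _ => ?_
        rw [Pi.smul_apply, smul_eq_mul]
        ring }
  have hinj : Function.Injective L := by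
    rw [injective_iff_map_eq_zero]
    intro y hy
    by_contra hne
    have h1 := h y hne
    have h2 : qf M y = 0 := by
      unfold qf
      rw [pd_bf]
      refine Finset.sum_eq_zero fun i _ => ?_
      have h3 : ∑ j, cm M i j * y j = 0 := congrFun hy i
      rw [h3, mul_zero]
    linarith
  obtain ⟨p, hp⟩ := LinearMap.injective_iff_surjective.1 hinj (fun _ => 1)
  refine ⟨Finsupp.equivFunOnFinite.symm p, fun i => ?_⟩
  exact congrFun hp i

private theorem pd_sep (hM : ∀ i j, M i j ≠ 0) [Fintype B] (h : ∀ x : B → ℝ, x ≠ 0 → 0 < qf M x)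
    {p : B →₀ ℝ} (hp : ∀ i, ∑ j, cm M i j * p j = 1) {w : M.Group} (hw : w ≠ 1) :
    1 < qf M (⇑(rho M.toCoxeterSystem w p) - ⇑p) := by
  classical
  have h0 : ∀ x : B → ℝ, 0 ≤ qf M x := by
    intro x
    by_cases hx : x = 0
    · rw [hx]
      unfold qf
      rw [pd_bf]
      simp
    · exact (h x hx).le
  obtain ⟨i, hi⟩ := M.toCoxeterSystem.exists_rightDescent_of_ne_one (inv_ne_one.2 hw)
  obtain ⟨v, hv⟩ : ∃ v : M.Group, v = w⁻¹ * M.toCoxeterSystem.simple i := ⟨_, rfl⟩
  have hv' : w⁻¹ = v * M.toCoxeterSystem.simple i := by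
    rw [hv, simple_mul_simple_cancel_right]
  have hlen : M.toCoxeterSystem.length v < M.toCoxeterSystem.length (v * M.toCoxeterSystem.simple i) := by
    rw [← hv', hv]
    exact hi
  have hpos := fun k => pos_root M.toCoxeterSystem v i hlen k
  obtain ⟨c, hc⟩ : ∃ c : B →₀ ℝ, c = rho M.toCoxeterSystem v (Finsupp.single i 1) := ⟨_, rfl⟩
  rw [← hc] at hpos
  have hc0 : c ≠ 0 := by
    intro h1
    have h2 : rho M.toCoxeterSystem v⁻¹ c = Finsupp.single i (1 : ℝ) := by
      rw [hc, ← Module.End.mul_apply, ← map_mul, inv_mul_cancel, map_one]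
      rfl
    rw [h1, map_zero] at h2
    have h3 := DFunLike.congr_fun h2 i
    rw [Finsupp.single_eq_same, Finsupp.zero_apply] at h3
    exact zero_ne_one h3
  have hr : rho M.toCoxeterSystem w⁻¹ (ev i) = -c := by
    rw [hv', map_mul, Module.End.mul_apply, rho_simple, ev, c1_grefl_apply, c1_self, hc, map_sub,
      map_smul]
    module
  have hcp : 0 < bf M ⇑c ⇑p := by
    rw [pd_bf]
    have h1 : ∑ k, c k * ∑ j, cm M k j * p j = ∑ k, c k := by
      refine Finset.sum_congr rfl fun k _ => ?_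
      rw [hp, mul_one]
    rw [h1]
    obtain ⟨k, hk⟩ : ∃ k, c k ≠ 0 := by
      by_contra hcon
      push Not at hcon
      exact hc0 (Finsupp.ext hcon)
    exact Finset.sum_pos' (fun k _ => hpos k) ⟨k, Finset.mem_univ k, lt_of_le_of_ne (hpos k) hk.symm⟩
  have he : bf M ⇑(ev i) ⇑(rho M.toCoxeterSystem w p) = - bf M ⇑c ⇑p := by
    rw [← pd_inv hM w⁻¹, hr, ← Module.End.mul_apply, ← map_mul, inv_mul_cancel, map_one]
    have h1 : ⇑(-c) = (-1 : ℝ) • ⇑c := by
      rw [Finsupp.coe_neg]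
      module
    rw [h1, bf_smul_left, Module.End.one_apply]
    ring
  have hep : bf M ⇑(ev i) ⇑p = 1 := by
    rw [← pd_ev hM, pd_gform hM, hp]
  obtain ⟨z, hz⟩ : ∃ z : B → ℝ, z = ⇑(rho M.toCoxeterSystem w p) - ⇑p := ⟨_, rfl⟩
  rw [← hz]
  obtain ⟨t, ht⟩ : ∃ t : ℝ, t = bf M ⇑(ev i) z := ⟨_, rfl⟩
  have ht1 : t < -1 := by
    have h1 : z = ⇑(rho M.toCoxeterSystem w p) + (-1 : ℝ) • ⇑p := by
      rw [hz]
      module
    rw [ht, h1, bf_add_right, bf_smul_right, he, hep]
    linarith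
  have h2 := h0 (z + (-t) • ⇑(ev i))
  rw [qf_add, qf_smul, bf_smul_right, bf_symm z, ← ht] at h2
  have h3 : qf M ⇑(ev i) = 1 := pd_ee hM i
  rw [h3] at h2
  nlinarith

private theorem pd_sep2 (hM : ∀ i j, M i j ≠ 0) [Fintype B] (h : ∀ x : B → ℝ, x ≠ 0 → 0 < qf M x)
    {p : B →₀ ℝ} (hp : ∀ i, ∑ j, cm M i j * p j = 1) {u v : M.Group} (huv : u ≠ v) :
    1 < qf M (⇑(rho M.toCoxeterSystem u p) - ⇑(rho M.toCoxeterSystem v p)) := by
  have h1 : v⁻¹ * u ≠ 1 := fun h2 => huv (inv_mul_eq_one.1 h2).symm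
  have h2 := pd_sep hM h hp h1
  have h3 : (rho M.toCoxeterSystem u p) - (rho M.toCoxeterSystem v p) =
      rho M.toCoxeterSystem v (rho M.toCoxeterSystem (v⁻¹ * u) p - p) := by
    rw [map_sub, ← Module.End.mul_apply, ← map_mul, mul_inv_cancel_left]
  rw [← Finsupp.coe_sub, h3]
  rw [← Finsupp.coe_sub] at h2
  unfold qf at h2 ⊢
  rw [pd_inv hM]
  exact h2

private theorem pd_low [Fintype B] [Nonempty B] (h : ∀ x : B → ℝ, x ≠ 0 → 0 < qf M x) :
    ∃ ε : ℝ, 0 < ε ∧ ∀ x : B → ℝ, ε * ‖x‖ ^ 2 ≤ qf M x := by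
  have hcont : Continuous (qf M) := by
    unfold qf bf
    fun_prop
  have hne : (Metric.sphere (0 : B → ℝ) 1).Nonempty := by
    refine ⟨fun _ => 1, ?_⟩
    rw [mem_sphere_zero_iff_norm, pi_norm_const]
    norm_num
  obtain ⟨x0, hx0, hmin⟩ := (isCompact_sphere (0 : B → ℝ) 1).exists_isMinOn hne hcont.continuousOn
  have hx00 : x0 ≠ 0 := by
    intro h1
    rw [h1, mem_sphere_zero_iff_norm, norm_zero] at hx0
    exact zero_ne_one hx0
  refine ⟨qf M x0, h x0 hx00, fun x => ?_⟩
  by_cases hx : x = 0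
  · rw [hx, norm_zero]
    unfold qf
    rw [pd_bf, pd_bf]
    simp
  · have hn : 0 < ‖x‖ := norm_pos_iff.2 hx
    have h1 : ‖x‖⁻¹ • x ∈ Metric.sphere (0 : B → ℝ) 1 := by
      rw [mem_sphere_zero_iff_norm, norm_smul, norm_inv, norm_norm, inv_mul_cancel₀ hn.ne']
    have h2 : qf M x0 ≤ qf M (‖x‖⁻¹ • x) := hmin h1
    rw [qf_smul, inv_pow, ← div_eq_inv_mul, le_div_iff₀ (by positivity)] at h2
    exact h2

theorem fin_of_pd [Fintype B] (hM : ∀ i j, M i j ≠ 0) (h : ∀ x : B → ℝ, x ≠ 0 → 0 < qf M x) : Finite M.Group := by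
  obtain ⟨p, hp⟩ := pd_point h
  rcases isEmpty_or_nonempty B with hB | hB
  · have hs : Subsingleton M.Group := by
      refine ⟨fun u v => ?_⟩
      by_contra huv
      have h1 := pd_sep2 hM h hp huv
      unfold qf at h1
      rw [pd_bf] at h1
      simp at h1
      linarith
    infer_instance
  · obtain ⟨ε, hε, hlow⟩ := pd_low h
    have hcont : Continuous (qf M) := by
      unfold qf bf
      fun_prop
    have hq0 : qf M 0 = 0 := by
      unfold qf
      rw [pd_bf]
      simp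
    have hev : ∀ᶠ z in nhds (0 : B → ℝ), qf M z < 1 := by
      have h1 := hcont.tendsto (0 : B → ℝ)
      rw [hq0] at h1
      exact h1.eventually (gt_mem_nhds one_pos)
    obtain ⟨δ, hδ, hball⟩ := Metric.eventually_nhds_iff.1 hev
    obtain ⟨r, hr⟩ : ∃ r : ℝ, r = qf M ⇑p / ε + 1 := ⟨_, rfl⟩
    have hbd : ∀ w : M.Group, ⇑(rho M.toCoxeterSystem w p) ∈ Metric.closedBall (0 : B → ℝ) r := by
      intro w
      rw [mem_closedBall_zero_iff]
      have h1 := hlow ⇑(rho M.toCoxeterSystem w p)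
      have h2 : qf M ⇑(rho M.toCoxeterSystem w p) = qf M ⇑p := pd_inv hM w p p
      rw [h2, mul_comm, ← le_div_iff₀ hε] at h1
      have h3 := norm_nonneg ⇑(rho M.toCoxeterSystem w p)
      rw [hr]
      nlinarith [sq_nonneg (‖⇑(rho M.toCoxeterSystem w p)‖ - 1)]
    have htb := (isCompact_closedBall (0 : B → ℝ) r).totallyBounded
    obtain ⟨T, hT, hcov⟩ := Metric.totallyBounded_iff.1 htb (δ / 2) (by linarith)
    have hex : ∀ w : M.Group, ∃ y : T, dist ⇑(rho M.toCoxeterSystem w p) (y : B → ℝ) < δ / 2 := by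
      intro w
      have h1 := hcov (hbd w)
      rw [Set.mem_iUnion₂] at h1
      obtain ⟨y, hy, h2⟩ := h1
      exact ⟨⟨y, hy⟩, h2⟩
    choose c hc using hex
    have hfin : Finite T := hT
    refine Finite.of_injective c fun u v huv => ?_
    by_contra hne
    have h1 := pd_sep2 hM h hp hne
    have h2 : dist ⇑(rho M.toCoxeterSystem u p) ⇑(rho M.toCoxeterSystem v p) < δ := by
      have h3 := hc u
      have h4 := hc v
      rw [← huv] at h4
      have h5 := dist_triangle_right ⇑(rho M.toCoxeterSystem u p) ⇑(rho M.toCoxeterSystem v p)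
        (c u : B → ℝ)
      linarith
    have h3 := hball (y := ⇑(rho M.toCoxeterSystem u p) - ⇑(rho M.toCoxeterSystem v p)) (by
      rw [dist_zero_right, ← dist_eq_norm]
      exact h2)
    linarith

end Pool.Agent.H54.AP
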