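import Pool.Agent.H54.AP.MxI
import Pool.Agent.H54.AP.Gdn
import Pool.Agent.H54.CT.Fo

/-!
# [H54 AP STP] POLY from the unfolded diagram
-/

set_option autoImplicit false

namespace Pool.Agent.H54.AP

open CoxeterSystem Pool.H8.CDW Pool.Agent.H52.PAG Pool.Agent.H75.INF Pool.Agent.H54.TF Pool.Agent.H54.AF Pool.Agent.H54.BS
  Pool.Agent.H54.CT Pool.Agent.H34.TG Pool.Agent.H54.LK Pool.Agent.H2.UF Pool.Agent.H52.VK

variable {B : Type} {M : CoxeterMatrix B} {b c : B} {U : Set B}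

/-- POLY for a forest with labels at most `4` from the unfolded diagram -/
theorem polF_unf (hM : ∀ i j, M i j ≠ 0 ∧ M i j ≤ 4) (hfo : Forest M) (h : Brg M b c U) (h4 : M b c = 4)
    (hM' : ∀ s t, Mu h s t ≠ 0) (hf : ∀ K : Set (B ⊕ U), K ≠ Set.univ → Finite (resM (Mu h) K).Group)
    (hP : PolF (Mu h) Set.univ) : PolF M Set.univ := by
  obtain ⟨I, hpi, hb, hc⟩ := exists_ivU h h4
  obtain ⟨F, hF⟩ := exists_fold I
  have hpl : ∀ i, I.pi (.inl i) = i := fun i => by rw [hpi]; rfl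
  have hpr : ∀ i : U, I.pi (.inr i) = i.1 := fun i => by rw [hpi]; rfl
  have hs : ∀ {b' c' : B}, 3 ≤ M b' c' → 3 ≤ M c' b' := fun h1 => by rwa [M.symmetric]
  have key : ∀ {b' c' : B}, 3 ≤ M b' c' → ∀ t, I.pi t = c' → ∀ x ∈ ap M ({b'}ᶜ : Set B), F.fa x ∈ ap (Mu h) ({t}ᶜ : Set (B ⊕ U)) →
      x ∈ ap M ({c'}ᶜ : Set B) := by
    intro b' c' hbc t ht x hx hx'
    obtain ⟨T, hT⟩ := exists_brg (fun i j => (hM i j).1) hfo (hs hbc)
    have h1 := dsc I hF (r := b') (J := T) (fun i hi j hj hjr => hT.two i hi j hj fun e => hjr e.2) hT.right (hf _ ?_) hx (t := t)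
      (by rw [ht]; exact hT.left) hx'
    · rwa [ht] at h1
    · intro e
      have h2 : (Sum.inl b' : B ⊕ U) ∈ I.pi ⁻¹' T := by
        rw [e]
        trivial
      rw [Set.mem_preimage, hpl] at h2
      exact hT.right h2
  have gsu : ∀ {s t : B ⊕ U}, 3 ≤ Mu h s t → GS (Mu h) Set.univ s t := by
    intro s t hst
    have hne : s ≠ t := by
      rintro rfl
      rw [(Mu h).diagonal] at hst
      omega
    refine gs_of_gir ?_ (gir_of_polF hP trivial trivial hne)
    unfold lab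
    split_ifs <;> omega
  have up3 : ∀ {b' c' : B}, 3 ≤ M b' c' → 3 ≤ Mu h (.inl b') (.inl c') := by
    intro b' c' hbc
    by_cases e1 : b' = b ∧ c' = c
    · rw [e1.1, e1.2, mu_bc h]
    · by_cases e2 : b' = c ∧ c' = b
      · rw [e2.1, e2.2, mu_cb h]
      · rw [mu_ll h e1 e2]
        exact hbc
  refine polF_tree (fun i j => (hM i j).1) (fun i j => (hM i j).2.trans (by norm_num)) hfo ?_ ?_
  · intro b' c' hbc
    exact gs_of hF (hpl b') (hpl c') (gsu (up3 hbc)) (key hbc _ (hpl c')) (key (hs hbc) _ (hpl b'))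
  · intro b' c' hbc'
    have hbc : M b' c' = 4 := by
      have := (hM b' c').2
      omega
    have six : Gir (ap M ({b}ᶜ : Set B)) (ap M ({c}ᶜ : Set B)) 4 := by
      have h3 : 3 ≤ M b c := by omega
      refine six_of hF (b1 := .inl b) (b2 := .inr ⟨b, h.left⟩) (c1 := .inl c) (hpl b) (hpr _) (hpl c) hM' (mu_bc h).ge
        (gsu (mu_bc h).ge) (gsu (mu_bc' h).ge) {s | ∃ i ∈ U, s = .inl i} ⟨b, h.left, rfl⟩ ?_ ?_ ?_ ?_ ?_ ?_
      · rintro ⟨i, -, e⟩
        exact Sum.inr_ne_inl e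
      · rintro ⟨i, hi, e⟩
        rw [Sum.inl.injEq] at e
        rw [← e] at hi
        exact h.right hi
      · rintro _ ⟨i, hi, rfl⟩ t ht htc
        exact mx_sep M (brg_ne h) U U h.left h.right h.two i hi t htc fun j hj e => ht ⟨j, hj, e⟩
      · exact fun g hg h1 => key (hs h3) _ (hpl b) g hg h1
      · exact fun g hg h1 => key h3 _ (hpl c) g hg h1
      · exact fun g hg h1 => key (hs h3) _ (hpr ⟨b, h.left⟩) g hg h1
    by_cases e1 : b' = b ∧ c' = c
    · rw [e1.1, e1.2]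
      exact six
    by_cases e2 : b' = c ∧ c' = b
    · rw [e2.1, e2.2]
      exact six.symm
    have h5 : Mu h (.inl b') (.inl c') = 4 := by rw [mu_ll h e1 e2, hbc]
    have hne : (Sum.inl b' : B ⊕ U) ≠ Sum.inl c' := by
      intro e
      rw [e, (Mu h).diagonal] at h5
      omega
    have h6 := gir_of_polF hP (b := Sum.inl b') (c := Sum.inl c') trivial trivial hne
    rw [h5, univ_diff, univ_diff] at h6
    exact gir_down hF (hpl b') (hpl c') h6 (key (by omega) _ (hpl c')) (key (hs (by omega)) _ (hpl b'))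

end Pool.Agent.H54.AP
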